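import Pool.Agent.MP_18cdfa_lc.Order

/-!
# Choice of the two symbols
-/

set_option autoImplicit false

namespace Pool.Agent.MP_18cdfa_lc

variable {S : Sig}

lemma exists_min (S : Sig) (P : Fin S.m → Prop) (h : ∃ x, P x) :
    ∃ c, P c ∧ ∀ d, P d → ¬ S.prec c d := by
  let r : Fin S.m → Fin S.m → Prop := fun x y => S.prec y x
  have : IsTrans (Fin S.m) r := ⟨fun x y z h1 h2 => S.trans z y x h2 h1⟩
  have : Std.Irrefl r := ⟨fun x => S.irrefl x⟩
  have wf : WellFounded r := Finite.wellFounded_of_trans_of_irrefl r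
  obtain ⟨c, hc, hm⟩ := wf.has_min {x | P x} h
  exact ⟨c, hc, fun d hd => hm d hd⟩

/-- an incomparable pair of symbols that are not constants, unary or with lexicographic status,
above symbols of arity at most one only -/
structure Pair (S : Sig) (f g : Fin S.m) : Prop where
  ne : f ≠ g
  nfg : ¬ S.prec f g
  ngf : ¬ S.prec g f
  pf : 0 < S.ar f
  pg : 0 < S.ar g
  lf : S.ar f = 1 ∨ S.lex f = true
  lg : S.ar g = 1 ∨ S.lex g = true
  low : ∀ h, S.prec f h ∨ S.prec g h → S.ar h ≤ 1

lemma Pair.symm {f g : Fin S.m} (h : Pair S f g) : Pair S g f :=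
  ⟨h.ne.symm, h.ngf, h.nfg, h.pg, h.pf, h.lg, h.lf, fun x hx => h.low x hx.symm⟩

open Classical in
/-- number of symbols below -/
noncomputable def cone (S : Sig) (f g : Fin S.m) : ℕ :=
  (Finset.univ.filter fun h => S.prec f h ∨ S.prec g h).card

lemma cone_symm (f g : Fin S.m) : cone S f g = cone S g f := by
  unfold cone
  congr 1
  ext h
  simp [or_comm]

lemma step {f g h : Fin S.m} (H : Pair S f g) (hh : 0 < S.ar h) (h1 : S.prec f h)
    (h2 : ¬ S.prec g h) : Pair S h g ∧ cone S h g < cone S f g := by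
  have ha : S.ar h = 1 := le_antisymm (H.low h (Or.inl h1)) hh
  constructor
  · refine ⟨?_, ?_, h2, hh, H.pg, Or.inl ha, H.lg, ?_⟩
    · rintro rfl
      exact H.nfg h1
    · intro h3
      exact H.nfg (S.trans _ _ _ h1 h3)
    · rintro x (hx | hx)
      · exact H.low x (Or.inl (S.trans _ _ _ h1 hx))
      · exact H.low x (Or.inr hx)
  · unfold cone
    apply Finset.card_lt_card
    rw [Finset.ssubset_iff_of_subset]
    · refine ⟨h, by simp [h1], ?_⟩
      simp only [Finset.mem_filter, Finset.mem_univ, true_and]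
      rintro (h3 | h3)
      · exact S.irrefl h h3
      · exact h2 h3
    · intro x hx
      simp only [Finset.mem_filter, Finset.mem_univ, true_and] at hx ⊢
      rcases hx with hx | hx
      · exact Or.inl (S.trans _ _ _ h1 hx)
      · exact Or.inr hx

lemma exists_pair {f g : Fin S.m} (H : Pair S f g) : ∃ a b, Pair S a b ∧
    ∀ h, 0 < S.ar h → (S.prec a h ∨ S.prec b h) → S.ar h = 1 ∧ S.prec a h ∧ S.prec b h := by
  induction hn : cone S f g using Nat.strong_induction_on generalizing f g with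
  | _ n ih =>
    by_cases hs : ∃ h, 0 < S.ar h ∧ S.prec f h ∧ ¬ S.prec g h
    · obtain ⟨h, hh, h1, h2⟩ := hs
      obtain ⟨h3, h4⟩ := step H hh h1 h2
      exact ih _ (by rw [← hn]; exact h4) h3 rfl
    by_cases ht : ∃ h, 0 < S.ar h ∧ S.prec g h ∧ ¬ S.prec f h
    · obtain ⟨h, hh, h1, h2⟩ := ht
      obtain ⟨h3, h4⟩ := step H.symm hh h1 h2
      exact ih _ (by rw [← hn, cone_symm f g]; exact h4) h3 rfl
    refine ⟨f, g, H, fun h hh hfg => ?_⟩
    have ha : S.ar h = 1 := le_antisymm (H.low h hfg) hh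
    push Not at hs ht
    rcases hfg with h1 | h1
    · exact ⟨ha, h1, hs h hh h1⟩
    · exact ⟨ha, ht h hh h1, h1⟩

theorem exists_setup {f g : Fin S.m} (H : Pair S f g) : Nonempty (Setup S) := by
  obtain ⟨a, b, H, hlow⟩ := exists_pair H
  by_cases h1 : ∃ d, S.ar d = 0 ∧ S.prec a d
  · obtain ⟨c, ⟨hc, hac⟩, hm⟩ := exists_min S _ h1
    exact ⟨{ a := a, b := b, c := c, hab := H.ne, nab := H.nfg, nba := H.ngf, pa := H.pf,
             pb := H.pg, la := H.lf, lb := H.lg, hc := hc,
             cmin := fun d hd hcd => hm d ⟨hd, S.trans _ _ _ hac hcd⟩ hcd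
             low := hlow, base := Or.inl hac }⟩
  by_cases h2 : ∃ d, S.ar d = 0 ∧ S.prec b d
  · obtain ⟨c, ⟨hc, hbc⟩, hm⟩ := exists_min S _ h2
    exact ⟨{ a := b, b := a, c := c, hab := H.ne.symm, nab := H.ngf, nba := H.nfg, pa := H.pg,
             pb := H.pf, la := H.lg, lb := H.lf, hc := hc,
             cmin := fun d hd hcd => hm d ⟨hd, S.trans _ _ _ hbc hcd⟩ hcd
             low := fun h hh hab => by
               obtain ⟨h3, h4, h5⟩ := hlow h hh hab.symm
               exact ⟨h3, h5, h4⟩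
             base := Or.inl hbc }⟩
  obtain ⟨c, hc, hm⟩ := exists_min S (fun d => S.ar d = 0) S.const
  push Not at h1 h2
  exact ⟨{ a := a, b := b, c := c, hab := H.ne, nab := H.nfg, nba := H.ngf, pa := H.pf,
           pb := H.pg, la := H.lf, lb := H.lg, hc := hc, cmin := hm, low := hlow,
           base := Or.inr fun d hd => ⟨h1 d hd, h2 d hd⟩ }⟩

end Pool.Agent.MP_18cdfa_lc
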