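import Pool.Agent.MP_18cdfa_lc.Defs

/-!
# The strings of terms and formulas can be read in one way only
-/

set_option autoImplicit false

namespace Pool.Agent.MP_18cdfa_lc

variable {S : Sig}

lemma flatten_inj (n : ℕ) (s s' : Fin n → Tm S ℕ)
    (ih : ∀ i (t' : Tm S ℕ) (r r' : List ℕ), (s i).code ++ r = t'.code ++ r' →
      s i = t' ∧ r = r') (r r' : List ℕ)
    (h : (List.ofFn fun i => (s i).code).flatten ++ r =
      (List.ofFn fun i => (s' i).code).flatten ++ r') : s = s' ∧ r = r' := by
  induction n with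
  | zero =>
    simp at h
    exact ⟨funext fun i => i.elim0, h⟩
  | succ n ihn =>
    rw [List.ofFn_succ, List.ofFn_succ, List.flatten_cons, List.flatten_cons, List.append_assoc,
      List.append_assoc] at h
    obtain ⟨h1, h2⟩ := ih 0 _ _ _ h
    obtain ⟨h3, h4⟩ := ihn (fun i => s i.succ) (fun i => s' i.succ) (fun i => ih i.succ) h2
    refine ⟨funext fun i => ?_, h4⟩
    refine Fin.cases h1 (fun j => ?_) i
    exact congrFun h3 j

lemma Tm.code_append (t : Tm S ℕ) : ∀ (t' : Tm S ℕ) (r r' : List ℕ),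
    t.code ++ r = t'.code ++ r' → t = t' ∧ r = r' := by
  induction t with
  | var x =>
    intro t' r r' h
    cases t' with
    | var y =>
      simp only [Tm.code, List.cons_append, List.nil_append, List.cons.injEq, true_and] at h
      exact ⟨by rw [h.1], h.2⟩
    | app f s => simp [Tm.code] at h
  | app f s ih =>
    intro t' r r' h
    cases t' with
    | var y => simp [Tm.code] at h
    | app g s' =>
      simp only [Tm.code, List.cons_append, List.cons.injEq] at h
      have hfg : f = g := Fin.ext (by omega)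
      subst hfg
      obtain ⟨h1, h2⟩ := flatten_inj _ s s' ih r r' h.2
      exact ⟨by rw [h1], h2⟩

lemma Fml.code_append (φ : Fml S ℕ) : ∀ (φ' : Fml S ℕ) (r r' : List ℕ),
    φ.code ++ r = φ'.code ++ r' → φ = φ' ∧ r = r' := by
  induction φ with
  | eq s t =>
    intro φ' r r' h
    cases φ' <;> simp only [Fml.code, List.cons_append, List.cons.injEq, List.append_assoc,
      OfNat.zero_ne_ofNat, zero_ne_one, false_and, true_and] at h
    obtain ⟨h1, h2⟩ := Tm.code_append _ _ _ _ h
    obtain ⟨h3, h4⟩ := Tm.code_append _ _ _ _ h2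
    exact ⟨by rw [h1, h3], h4⟩
  | gt s t =>
    intro φ' r r' h
    cases φ' <;> simp only [Fml.code, List.cons_append, List.cons.injEq, List.append_assoc,
      OfNat.one_ne_ofNat, one_ne_zero, false_and, true_and] at h
    obtain ⟨h1, h2⟩ := Tm.code_append _ _ _ _ h
    obtain ⟨h3, h4⟩ := Tm.code_append _ _ _ _ h2
    exact ⟨by rw [h1, h3], h4⟩
  | not φ ih =>
    intro φ' r r' h
    cases φ' <;> simp [Fml.code] at h
    obtain ⟨h1, h2⟩ := ih _ _ _ h
    exact ⟨by rw [h1], h2⟩
  | and φ ψ ih1 ih2 =>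
    intro φ' r r' h
    cases φ' <;> simp [Fml.code] at h
    obtain ⟨h1, h2⟩ := ih1 _ _ _ h
    obtain ⟨h3, h4⟩ := ih2 _ _ _ h2
    exact ⟨by rw [h1, h3], h4⟩
  | or φ ψ ih1 ih2 =>
    intro φ' r r' h
    cases φ' <;> simp [Fml.code] at h
    obtain ⟨h1, h2⟩ := ih1 _ _ _ h
    obtain ⟨h3, h4⟩ := ih2 _ _ _ h2
    exact ⟨by rw [h1, h3], h4⟩

/-- Different formulas have different strings. -/
theorem Fml.code_injective : Function.Injective (Fml.code : Fml S ℕ → List ℕ) := by
  intro φ ψ h
  exact (φ.code_append ψ [] [] (by rw [h])).1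

end Pool.Agent.MP_18cdfa_lc
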