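import Mathlib

/-!
# The recursive path ordering with status: definitions
-/

set_option autoImplicit false

namespace Pool.Agent.MP_18cdfa_lc

/-- A finite signature with a precedence and a status function: the symbols are the elements of
`Fin m`, `ar` gives the arities, `prec f g` means that `f` is greater than `g`, and `lex f` is
`true` for the lexicographic status and `false` for the multiset status. -/
structure Sig where
  m : ℕ
  ar : Fin m → ℕ
  prec : Fin m → Fin m → Prop
  lex : Fin m → Bool
  irrefl : ∀ f, ¬ prec f f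
  trans : ∀ f g h, prec f g → prec g h → prec f h
  const : ∃ c, ar c = 0

/-- ground terms -/
inductive Ground (S : Sig) : Type
  | app (f : Fin S.m) (t : Fin (S.ar f) → Ground S)

/-- terms with variables in `V` -/
inductive Tm (S : Sig) (V : Type) : Type
  | var (x : V)
  | app (f : Fin S.m) (t : Fin (S.ar f) → Tm S V)

/-- The congruence generated by permuting the arguments of the symbols with multiset status. -/
inductive Eqv {S : Sig} : Ground S → Ground S → Prop
  | app (f : Fin S.m) (s t : Fin (S.ar f) → Ground S) (p : Equiv.Perm (Fin (S.ar f)))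
      (hp : S.lex f = true → p = 1) (h : ∀ i, Eqv (s i) (t (p i))) :
      Eqv (.app f s) (.app f t)

/-- The recursive path ordering: `Gt s t` means `s > t`. In the clause `mul` the multiset of the
`t j` arises from the one of the `s i` by removing the `s i` with `i ∈ I`, a nonempty set, and
adding the `t j` with `j ∈ J`, each of which is smaller than some `s i` with `i ∈ I`. -/
inductive Gt {S : Sig} : Ground S → Ground S → Prop
  | sub (f : Fin S.m) (s : Fin (S.ar f) → Ground S) (t : Ground S) (i : Fin (S.ar f))
      (h : Gt (s i) t) : Gt (.app f s) t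
  | subEqv (f : Fin S.m) (s : Fin (S.ar f) → Ground S) (t : Ground S) (i : Fin (S.ar f))
      (h : Eqv (s i) t) : Gt (.app f s) t
  | prec (f g : Fin S.m) (s : Fin (S.ar f) → Ground S) (t : Fin (S.ar g) → Ground S)
      (hfg : S.prec f g) (h : ∀ j, Gt (.app f s) (t j)) : Gt (.app f s) (.app g t)
  | lex (f : Fin S.m) (s t : Fin (S.ar f) → Ground S) (hf : S.lex f = true)
      (h : ∀ j, Gt (.app f s) (t j)) (i : Fin (S.ar f)) (he : ∀ j, j < i → Eqv (s j) (t j))
      (hi : Gt (s i) (t i)) : Gt (.app f s) (.app f t)
  | mul (f : Fin S.m) (s t : Fin (S.ar f) → Ground S) (hf : S.lex f = false)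
      (h : ∀ j, Gt (.app f s) (t j)) (I J : Finset (Fin (S.ar f))) (hI : I.Nonempty)
      (e : {i // i ∉ I} ≃ {j // j ∉ J}) (he : ∀ i, Eqv (s i.1) (t (e i).1))
      (g : Fin (S.ar f) → Fin (S.ar f)) (hg : ∀ j ∈ J, g j ∈ I)
      (hJ : ∀ j, j ∈ J → Gt (s (g j)) (t j)) : Gt (.app f s) (.app f t)

/-- value of a term -/
def Tm.eval {S : Sig} {V : Type} (v : V → Ground S) : Tm S V → Ground S
  | .var x => v x
  | .app f t => .app f (fun i => (t i).eval v)

/-- quantifier-free formulas of the language with the function symbols, `=` and `>` -/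
inductive Fml (S : Sig) (V : Type) : Type
  | eq (s t : Tm S V)
  | gt (s t : Tm S V)
  | not (φ : Fml S V)
  | and (φ ψ : Fml S V)
  | or (φ ψ : Fml S V)

/-- truth of a quantifier-free formula -/
def Fml.Holds {S : Sig} {V : Type} (v : V → Ground S) : Fml S V → Prop
  | .eq s t => s.eval v = t.eval v
  | .gt s t => Gt (s.eval v) (t.eval v)
  | .not φ => ¬ φ.Holds v
  | .and φ ψ => φ.Holds v ∧ ψ.Holds v
  | .or φ ψ => φ.Holds v ∨ ψ.Holds v

/-- terms as strings (Polish form) -/
def Tm.code {S : Sig} : Tm S ℕ → List ℕ
  | .var x => [0, x]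
  | .app f t => (f.val + 1) :: (List.ofFn (fun i => (t i).code)).flatten

/-- formulas as strings (Polish form) -/
def Fml.code {S : Sig} : Fml S ℕ → List ℕ
  | .eq s t => 0 :: (s.code ++ t.code)
  | .gt s t => 1 :: (s.code ++ t.code)
  | .not φ => 2 :: φ.code
  | .and φ ψ => 3 :: (φ.code ++ ψ.code)
  | .or φ ψ => 4 :: (φ.code ++ ψ.code)

/-- The existential theory is decidable: some computable function decides, given the string of a
quantifier-free formula `φ`, whether the sentence `∃ x₀ x₁ …, φ` is true in the ground terms. -/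
def ExistentialDecidable (S : Sig) : Prop :=
  ∃ dec : List ℕ → Bool, Computable dec ∧
    ∀ φ : Fml S ℕ, dec φ.code = true ↔ ∃ v : ℕ → Ground S, φ.Holds v

end Pool.Agent.MP_18cdfa_lc
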