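import Pool.Agent.MP_18cdfa_lc.Order

/-!
# Existentially definable relations between ground terms
-/

set_option autoImplicit false

namespace Pool.Agent.MP_18cdfa_lc

variable {S : Sig} {V W : Type}

/-- change of variables -/
def Tm.map (g : V → W) : Tm S V → Tm S W
  | .var x => .var (g x)
  | .app f t => .app f (fun i => (t i).map g)

lemma Tm.eval_map (g : V → W) (v : W → Ground S) (t : Tm S V) :
    (t.map g).eval v = t.eval (v ∘ g) := by
  induction t with
  | var x => rfl
  | app f t ih =>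
    simp only [Tm.map, Tm.eval]
    congr 1
    funext i
    exact ih i

/-- change of variables -/
def Fml.map (g : V → W) : Fml S V → Fml S W
  | .eq s t => .eq (s.map g) (t.map g)
  | .gt s t => .gt (s.map g) (t.map g)
  | .not φ => .not (φ.map g)
  | .and φ ψ => .and (φ.map g) (ψ.map g)
  | .or φ ψ => .or (φ.map g) (ψ.map g)

lemma Fml.holds_map (g : V → W) (v : W → Ground S) (φ : Fml S V) :
    (φ.map g).Holds v ↔ φ.Holds (v ∘ g) := by
  induction φ with
  | eq s t => simp only [Fml.map, Fml.Holds, Tm.eval_map]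
  | gt s t => simp only [Fml.map, Fml.Holds, Tm.eval_map]
  | not φ ih => simp only [Fml.map, Fml.Holds, ih]
  | and φ ψ h1 h2 => simp only [Fml.map, Fml.Holds, h1, h2]
  | or φ ψ h1 h2 => simp only [Fml.map, Fml.Holds, h1, h2]

/-- ground terms as terms -/
def Ground.tm : Ground S → Tm S V
  | .app f t => .app f (fun i => (t i).tm)

lemma Ground.eval_tm (v : V → Ground S) (t : Ground S) : (t.tm : Tm S V).eval v = t := by
  induction t with
  | app f t ih =>
    simp only [Ground.tm, Tm.eval]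
    congr 1
    funext i
    exact ih i

/-- letters in front of a term -/
def Setup.preT (U : Setup S) (w : List Bool) (X : Tm S V) : Tm S V :=
  match w with
  | [] => X
  | x :: w => .app (U.L x) (fun j => if j.val + 1 < S.ar (U.L x) then U.C.tm else U.preT w X)

lemma Setup.eval_preT (U : Setup S) (w : List Bool) (X : Tm S V) (v : V → Ground S) :
    (U.preT w X).eval v = U.pre w (X.eval v) := by
  induction w with
  | nil => rfl
  | cons x w ih =>
    simp only [Setup.preT, Setup.pre, Tm.eval]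
    congr 1
    funext j
    unfold Setup.args
    by_cases h : j.val + 1 < S.ar (U.L x)
    · simp only [if_pos h]
      rw [Ground.eval_tm]
    · simp only [if_neg h]
      rw [ih]

/-- sequence with new first entry -/
def gcons (x : Ground S) (v : ℕ → Ground S) : ℕ → Ground S
  | 0 => x
  | n + 1 => v n

/-- existentially definable -/
def ED (R : (ℕ → Ground S) → Prop) : Prop :=
  ∃ φ : Fml S (ℕ ⊕ ℕ), ∀ v, R v ↔ ∃ t, φ.Holds (Sum.elim v t)

namespace ED

lemma congr {R T : (ℕ → Ground S) → Prop} (h : ED R) (hRT : ∀ v, T v ↔ R v) : ED T := by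
  obtain ⟨φ, hφ⟩ := h
  exact ⟨φ, fun v => (hRT v).trans (hφ v)⟩

lemma qf (φ : Fml S ℕ) : ED (fun v => φ.Holds v) := by
  obtain ⟨c, hc⟩ := S.const
  refine ⟨φ.map Sum.inl, fun v => ?_⟩
  simp only [Fml.holds_map]
  constructor
  · intro h
    exact ⟨fun _ => Setup.K c hc, h⟩
  · rintro ⟨t, ht⟩
    exact ht

lemma and {R T : (ℕ → Ground S) → Prop} (hR : ED R) (hT : ED T) : ED (fun v => R v ∧ T v) := by
  obtain ⟨φ, hφ⟩ := hR
  obtain ⟨ψ, hψ⟩ := hT
  refine ⟨.and (φ.map (Sum.map id (fun n => 2 * n))) (ψ.map (Sum.map id (fun n => 2 * n + 1))),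
    fun v => ?_⟩
  simp only [Fml.Holds, Fml.holds_map]
  rw [hφ, hψ]
  constructor
  · rintro ⟨⟨t, ht⟩, ⟨u, hu⟩⟩
    refine ⟨fun n => if n % 2 = 0 then t (n / 2) else u (n / 2), ?_, ?_⟩
    · convert ht using 1
      funext x
      rcases x with x | x
      · rfl
      · simp
    · convert hu using 1
      funext x
      rcases x with x | x
      · rfl
      · have h1 : (2 * x + 1) % 2 = 1 := by omega
        have h2 : (2 * x + 1) / 2 = x := by omega
        simp [h1, h2]
  · rintro ⟨t, h1, h2⟩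
    refine ⟨⟨fun n => t (2 * n), ?_⟩, ⟨fun n => t (2 * n + 1), ?_⟩⟩
    · convert h1 using 1
      funext x
      rcases x with x | x <;> rfl
    · convert h2 using 1
      funext x
      rcases x with x | x <;> rfl

lemma or {R T : (ℕ → Ground S) → Prop} (hR : ED R) (hT : ED T) : ED (fun v => R v ∨ T v) := by
  obtain ⟨φ, hφ⟩ := hR
  obtain ⟨ψ, hψ⟩ := hT
  refine ⟨.or φ ψ, fun v => ?_⟩
  simp only [Fml.Holds]
  rw [hφ, hψ, exists_or]

lemma ex {R : (ℕ → Ground S) → Prop} (hR : ED R) : ED (fun v => ∃ x, R (gcons x v)) := by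
  obtain ⟨φ, hφ⟩ := hR
  let f : ℕ ⊕ ℕ → ℕ ⊕ ℕ := Sum.elim (fun i => Nat.casesOn i (Sum.inr 0) Sum.inl)
    (fun n => Sum.inr (n + 1))
  have key : ∀ (v : ℕ → Ground S) (x : Ground S) (t : ℕ → Ground S),
      Sum.elim v (gcons x t) ∘ f = Sum.elim (gcons x v) t := by
    intro v x t
    funext i
    rcases i with i | i
    · cases i <;> rfl
    · rfl
  refine ⟨φ.map f, fun v => ?_⟩
  simp only [Fml.holds_map]
  constructor
  · rintro ⟨x, hx⟩
    obtain ⟨t, ht⟩ := (hφ _).1 hx
    refine ⟨gcons x t, ?_⟩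
    rw [key]
    exact ht
  · rintro ⟨t, ht⟩
    refine ⟨t 0, (hφ _).2 ⟨fun n => t (n + 1), ?_⟩⟩
    rw [← key]
    have e : gcons (t 0) (fun n => t (n + 1)) = t := by
      funext n
      cases n <;> rfl
    rw [e]
    exact ht

lemma reindex {R : (ℕ → Ground S) → Prop} (hR : ED R) (g : ℕ → ℕ) : ED (fun v => R (v ∘ g)) := by
  obtain ⟨φ, hφ⟩ := hR
  refine ⟨φ.map (Sum.map g id), fun v => ?_⟩
  refine (hφ (v ∘ g)).trans ?_
  simp only [Fml.holds_map]
  refine exists_congr fun t => ?_
  have e : Sum.elim (v ∘ g) t = Sum.elim v t ∘ Sum.map g id := by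
    funext i
    rcases i with i | i <;> rfl
  rw [e]

lemma true : ED (fun _ : ℕ → Ground S => True) :=
  (qf (.eq (.var 0) (.var 0))).congr fun v => by simp [Fml.Holds]

lemma forall_mem {ι : Type} (l : List ι) (R : ι → (ℕ → Ground S) → Prop)
    (h : ∀ i ∈ l, ED (R i)) : ED (fun v => ∀ i ∈ l, R i v) := by
  induction l with
  | nil => exact ED.true.congr fun v => by simp
  | cons i l ih =>
    refine ((h i (by simp)).and (ih fun j hj => h j (by simp [hj]))).congr fun v => ?_
    simp

lemma imp_const (p : Prop) {R : (ℕ → Ground S) → Prop} (hR : ED R) : ED (fun v => p → R v) := by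
  by_cases hp : p
  · exact hR.congr fun v => by simp [hp]
  · exact ED.true.congr fun v => by simp [hp]

lemma gt (s t : Tm S ℕ) : ED (fun v => Gt (s.eval v) (t.eval v)) := qf (.gt s t)

lemma ngt (s t : Tm S ℕ) : ED (fun v => ¬ Gt (s.eval v) (t.eval v)) := qf (.not (.gt s t))

lemma ge (s t : Tm S ℕ) : ED (fun v => Ge (s.eval v) (t.eval v)) :=
  qf (.or (.gt s t) (.eq s t))

lemma nge (s t : Tm S ℕ) : ED (fun v => ¬ Ge (s.eval v) (t.eval v)) :=
  qf (.not (.or (.gt s t) (.eq s t)))

end ED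

end Pool.Agent.MP_18cdfa_lc
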