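import Pool.Agent.MP_18cdfa_lc.Words

/-!
# The words of the gadgets
-/

set_option autoImplicit false

namespace Pool.Agent.MP_18cdfa_lc

open List (replicate Sublist)

/-- `a^p b` -/
def A1 (p : ℕ) : List Bool := replicate p true ++ [false]
/-- `a^p b b` -/
def A2 (p : ℕ) : List Bool := replicate p true ++ [false, false]

lemma A2_eq (p : ℕ) : A2 p = A1 p ++ [false] := by simp [A1, A2]

lemma A1_cf (p : ℕ) : (A1 p).count false = 1 := by simp [A1, List.count_replicate]
lemma A1_ct (p : ℕ) : (A1 p).count true = p := by simp [A1]
lemma A2_cf (p : ℕ) : (A2 p).count false = 2 := by simp [A2, List.count_replicate]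
lemma A2_ct (p : ℕ) : (A2 p).count true = p := by simp [A2]

lemma A1_mono {p q : ℕ} (h : p ≤ q) : Sublist (A1 p) (A1 q) :=
  ((List.replicate_sublist_replicate true).2 h).append (List.Sublist.refl _)

lemma A2_mono {p q : ℕ} (h : p ≤ q) : Sublist (A2 p) (A2 q) :=
  ((List.replicate_sublist_replicate true).2 h).append (List.Sublist.refl _)

lemma A1_le {p q : ℕ} (h : Sublist (A1 p) (A1 q)) : p ≤ q := by
  have := h.count_le true
  rwa [A1_ct, A1_ct] at this

lemma A1_A2 {p q : ℕ} (h : Sublist (A1 p) (A2 q)) : p ≤ q := by
  have := h.count_le true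
  rwa [A1_ct, A2_ct] at this

lemma A2_le {p q : ℕ} (h : Sublist (A2 p) (A2 q)) : p ≤ q := by
  have := h.count_le true
  rwa [A2_ct, A2_ct] at this

/-- splitting off the last `b` -/
lemma strip_false {x : List Bool} (h : false ∈ x) :
    ∃ x1 i, x = x1 ++ false :: replicate i true ∧
      ∀ u, Sublist (u ++ [false]) x ↔ Sublist u x1 := by
  obtain ⟨x1, x2, hx, hn, hs⟩ := strip false x h
  refine ⟨x1, x2.length, ?_, hs⟩
  rw [hx]
  congr 2
  apply List.eq_replicate_of_mem
  intro y hy
  cases y
  · exact absurd hy hn
  · rfl

/-! ### addition -/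

lemma add_one {s t r : ℕ} : Sublist (A1 r) (replicate s true ++ false :: (replicate t true ++ [false]))
    ↔ r ≤ s + t := by
  constructor
  · intro h
    have := h.count_le true
    rw [A1_ct] at this
    simpa using this
  · intro h
    have h1 : Sublist (replicate r true) (replicate s true ++ replicate t true) := by
      rw [← List.replicate_add]
      exact (List.replicate_sublist_replicate true).2 h
    have h2 : Sublist (replicate s true ++ replicate t true)
        (replicate s true ++ false :: replicate t true) :=
      (List.Sublist.refl _).append (List.sublist_cons_self _ _)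
    have h3 := (h1.trans h2).append (List.Sublist.refl [false])
    simpa [A1] using h3

lemma add_two {s t q : ℕ} : Sublist (false :: A1 q)
    (replicate s true ++ false :: (replicate t true ++ [false])) ↔ q ≤ t := by
  have := run_sub true s (replicate t true ++ [false]) (A1 q)
  simp only [Bool.not_true] at this
  rw [this]
  exact ⟨A1_le, A1_mono⟩

lemma add_three {s t p : ℕ} : Sublist (A2 p)
    (replicate s true ++ false :: (replicate t true ++ [false])) ↔ p ≤ s := by
  have e : replicate s true ++ false :: (replicate t true ++ [false]) =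
      (replicate s true ++ ([false] ++ replicate t true)) ++ [false] := by simp
  have h1 : Sublist (A1 p) ((replicate s true ++ [false]) ++ replicate t true) ↔
      Sublist (A1 p) (replicate s true ++ [false]) := by
    refine sub_snoc_notin ?_
    intro h
    have := List.eq_of_mem_replicate h
    simp at this
  rw [A2_eq, e, append_right_iff, ← List.append_assoc, h1]
  exact ⟨A1_le, A1_mono⟩

/-! ### multiplication -/

theorem mult_sound {z w v : List Bool} {M N N' i p q : ℕ}
    (hz0 : z.count false = M) (hz1 : Sublist (A1 N) z) (hz2 : ¬ Sublist (A1 (N + 1)) z)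
    (hz3 : ¬ Sublist (A2 N) z)
    (hw0 : w.count false = M + 1) (hw2 : ¬ Sublist (A1 (N + 1)) w) (hw3 : Sublist (A2 N) w)
    (hzw : Sublist z w)
    (hv0 : v.count false = M + 1) (hv1 : Sublist (A2 N) v) (hv2 : ¬ Sublist (A2 (N + 1)) v)
    (hv3 : Sublist (A1 N') v) (hv4 : ¬ Sublist (A1 (N' + 1)) v)
    (hwv : Sublist w v) (hbz : Sublist (false :: z) v)
    (hF : Sublist (replicate p true ++ replicate q false) z) (hp : i ≤ p) (hq : M ≤ q)
    (hN : 1 ≤ N) (hN' : N' = N + i) : N = i * M := by
  have hfz : false ∈ z := hz1.subset (by simp [A1])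
  have hfw : false ∈ w := hw3.subset (by simp [A2])
  have hfv : false ∈ v := hv3.subset (by simp [A1])
  obtain ⟨z1, jz, rfl, hz⟩ := strip_false hfz
  obtain ⟨w1, jw, rfl, hw⟩ := strip_false hfw
  obtain ⟨v1, jv, rfl, hv⟩ := strip_false hfv
  -- reformulation of the tests
  have t1 : ∀ (n : ℕ) (x : List Bool), Sublist (replicate n true) x ↔ n ≤ x.count true :=
    fun n x => rep_sub true n x
  have cz : z1.count true = N := by
    have h1 := (t1 N z1).1 ((hz _).1 hz1)
    have h2 : ¬ N + 1 ≤ z1.count true := fun h => hz2 ((hz _).2 ((t1 _ _).2 h))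
    omega
  have cv : v1.count true = N' := by
    have h1 := (t1 N' v1).1 ((hv _).1 hv3)
    have h2 : ¬ N' + 1 ≤ v1.count true := fun h => hv4 ((hv _).2 ((t1 _ _).2 h))
    omega
  have czf : z1.count false + 1 = M := by
    rw [← hz0]
    simp [List.count_replicate]
  have cwf : w1.count false = M := by
    have : w1.count false + 1 = M + 1 := by
      rw [← hw0]
      simp [List.count_replicate]
    omega
  have cvf : v1.count false = M := by
    have : v1.count false + 1 = M + 1 := by
      rw [← hv0]
      simp [List.count_replicate]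
    omega
  have hMpos : 1 ≤ M := by omega
  -- the word `z1` ends with `a`
  have hz3' : ¬ Sublist (A1 N) z1 := by
    intro h
    apply hz3
    rw [A2_eq]
    exact (hz _).2 h
  obtain ⟨z2, hz2e⟩ : ∃ z2, z1 = z2 ++ [true] := by
    rcases List.eq_nil_or_concat z1 with h | ⟨z2, y, h⟩
    · rw [h] at cz
      simp at cz
      omega
    · cases y with
      | true => exact ⟨z2, by simpa using h⟩
      | false =>
        exfalso
        apply hz3'
        have h' : z1 = z2 ++ [false] := by simpa using h
        rw [h'] at cz ⊢
        have h2 : z2.count true = N := by simpa using cz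
        exact ((t1 N z2).2 h2.ge).append (List.Sublist.refl _)
  -- the word `w1`
  have hfw1 : false ∈ w1 := by
    rw [← List.count_pos_iff]
    omega
  have hw3' : Sublist (A1 N) w1 := by
    rw [A2_eq] at hw3
    exact (hw _).1 hw3
  have cw : w1.count true = N := by
    have h1 := hw3'.count_le true
    rw [A1_ct] at h1
    have h2 : ¬ N + 1 ≤ w1.count true := fun h => hw2 ((hw _).2 ((t1 _ _).2 h))
    omega
  obtain ⟨w2, kw, hw1e, hw1s⟩ := strip_false hfw1
  have cw2 : w2.count true = N := by
    have h1 := (t1 N w2).1 ((hw1s _).1 hw3')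
    have h2 : w2.count true ≤ w1.count true := by rw [hw1e]; simp
    omega
  have hkw : kw = 0 := by
    rw [hw1e] at cw
    simp at cw
    omega
  subst hkw
  have hw1e' : w1 = w2 ++ [false] := by rw [hw1e]; rfl
  have cw2f : w2.count false + 1 = M := by
    rw [← cwf, hw1e']
    simp
  have hzw1 : Sublist z1 w1 := by
    have h1 : Sublist (z1 ++ [false]) (w1 ++ false :: replicate jw true) := by
      refine List.Sublist.trans ?_ hzw
      exact (List.Sublist.refl _).append (by simp)
    exact (hw _).1 h1
  have hzw2 : z1 = w2 := by
    have h1 : Sublist z1 w2 := by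
      rw [hw1e'] at hzw1
      rw [hz2e] at hzw1 ⊢
      exact (sub_snoc_ne (by decide)).1 hzw1
    exact (eq_of_counts h1 (by omega) (by omega)).symm
  -- the word `v1`
  have hfv1 : false ∈ v1 := by
    rw [← List.count_pos_iff]
    omega
  obtain ⟨v2, kv, hv1e, hv1s⟩ := strip_false hfv1
  have hv1' : Sublist (A1 N) v1 := by
    rw [A2_eq] at hv1
    exact (hv _).1 hv1
  have cv2 : v2.count true = N := by
    have h1 := (t1 N v2).1 ((hv1s _).1 hv1')
    have h2 : ¬ N + 1 ≤ v2.count true := by
      intro h
      apply hv2
      rw [A2_eq]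
      exact (hv _).2 ((hv1s _).2 ((t1 _ _).2 h))
    omega
  have cv2f : v2.count false + 1 = M := by
    rw [← cvf, hv1e]
    simp [List.count_replicate]
  have hkv : kv = i := by
    rw [hv1e] at cv
    simp at cv
    omega
  subst hkv
  have hwv2 : w2 = v2 := by
    have h1 : Sublist (w1 ++ [false]) (v1 ++ false :: replicate jv true) := by
      refine List.Sublist.trans ?_ hwv
      exact (List.Sublist.refl _).append (by simp)
    have h2 : Sublist w1 v1 := (hv _).1 h1
    rw [hw1e'] at h2
    have h3 : Sublist w2 v2 := (hv1s _).1 h2
    exact (eq_of_counts h3 (by omega) (by omega)).symm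
  -- conclusion
  have h1 : Sublist (false :: z1) (z1 ++ false :: replicate kv true) := by
    have h2 : Sublist ((false :: z1) ++ [false]) (v1 ++ false :: replicate jv true) := by
      refine List.Sublist.trans ?_ hbz
      rw [List.cons_append]
      exact ((List.Sublist.refl _).append (by simp)).cons_cons false
    have h3 := (hv _).1 h2
    rw [hv1e] at h3
    rw [hzw2, hwv2] at h3 ⊢
    exact h3
  have h4 : Sublist (replicate kv true ++ replicate (z1.count false) false) z1 := by
    have h5 : Sublist ((replicate kv true ++ replicate (z1.count false) false) ++ [false])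
        (z1 ++ false :: replicate jz true) := by
      refine List.Sublist.trans ?_ hF
      rw [List.append_assoc]
      refine ((List.replicate_sublist_replicate true).2 hp).append ?_
      have : replicate (z1.count false) false ++ [false] = replicate (z1.count false + 1) false := by
        rw [List.replicate_succ']
      rw [this]
      exact (List.replicate_sublist_replicate false).2 (by omega)
    exact (hz _).1 h5
  have h6 := shift_word kv z1 h1 h4
  rw [cz, czf] at h6
  exact h6

/-- `(a^i b)^k` -/
def UU (i : ℕ) : ℕ → List Bool
  | 0 => []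
  | k + 1 => UU i k ++ A1 i

lemma UU_cf (i k : ℕ) : (UU i k).count false = k := by
  induction k with
  | zero => rfl
  | succ k ih => rw [UU, List.count_append, ih, A1_cf]

lemma UU_ct (i k : ℕ) : (UU i k).count true = i * k := by
  induction k with
  | zero => rfl
  | succ k ih => rw [UU, List.count_append, ih, A1_ct]; ring

lemma UU_A1 (i k : ℕ) : Sublist (A1 (i * (k + 1))) (UU i (k + 1)) := by
  have h : Sublist (replicate (i * (k + 1)) true) (UU i k ++ replicate i true) := by
    rw [rep_sub, List.count_append, UU_ct]
    simp
    ring_nf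
    exact le_rfl
  have := h.append (List.Sublist.refl [false])
  simpa [A1, UU] using this

lemma UU_nA1 (i k : ℕ) : ¬ Sublist (A1 (i * k + 1)) (UU i k) := by
  intro h
  have := h.count_le true
  rw [A1_ct, UU_ct] at this
  omega

lemma UU_strip (i k : ℕ) (u : List Bool) :
    Sublist ((u ++ [false]) ++ [false]) (UU i (k + 1)) ↔ Sublist (u ++ [false]) (UU i k) := by
  have e : UU i (k + 1) = (UU i k ++ replicate i true) ++ [false] := by simp [UU, A1]
  rw [e, append_right_iff]
  refine sub_snoc_notin ?_
  intro h
  have := List.eq_of_mem_replicate h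
  simp at this

lemma UU_cons (i k : ℕ) : Sublist (false :: UU i k) (UU i (k + 1)) := by
  induction k with
  | zero => simp [UU, A1]
  | succ k ih =>
    have := ih.append (List.Sublist.refl (A1 i))
    exact this

lemma UU_F (i k : ℕ) : Sublist (replicate i true ++ replicate (k + 1) false) (UU i (k + 1)) := by
  induction k with
  | zero => simp [UU, A1]
  | succ k ih =>
    have h := ih.append (show Sublist [false] (A1 i) by simp [A1])
    rw [List.append_assoc, ← List.replicate_succ'] at h
    exact h

end Pool.Agent.MP_18cdfa_lc
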