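import Pool.Agent.MP_18cdfa_lc.Good
import Pool.Agent.MP_18cdfa_lc.Mult

/-!
# Addition and multiplication by comparisons of terms
-/

set_option autoImplicit false

namespace Pool.Agent.MP_18cdfa_lc

open List (replicate Sublist)

variable {S : Sig}

namespace Setup

variable (U : Setup S)

/-- terms with word `u ++ tn` and leaf `c` -/
def VN (u : List Bool) (X : Ground S) : Prop := U.Gd (u ++ tn) U.c X

/-- terms with word `u ++ tp` -/
def VP (u : List Bool) (X : Ground S) : Prop := ∃ d, U.Gd (u ++ tp) d X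

/-- terms with inner word `z` -/
def Host (z : List Bool) (X : Ground S) : Prop := ∃ x d, U.Gd x d X ∧ Circ x z

variable {U}

lemma VP.host {u : List Bool} {X : Ground S} (h : U.VP u X) : U.Host u X := by
  obtain ⟨d, h⟩ := h
  exact ⟨_, d, h, circ_word u⟩

lemma exists_host {X : Ground S} (h1 : U.GoodF X) (h2 : U.Pos tp X) : ∃ z, U.Host z X := by
  obtain ⟨x, d, h⟩ := good_of h1
  obtain ⟨z, hz⟩ := exists_circ (pos_sound h h2)
  exact ⟨z, x, d, h, hz⟩

lemma Host.pos {z u : List Bool} {X P : Ground S} (hX : U.Host z X) (hP : U.VP u P)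
    (w : List Bool) (h : Ge X (U.pre w P)) : Sublist (w ++ u) z := by
  obtain ⟨x, d, h1, h2⟩ := hX
  obtain ⟨e, h3⟩ := hP
  have h4 := sub_of_ge h h1 (h3.pre w)
  rw [← List.append_assoc] at h4
  exact (h2.1 _).1 h4

lemma Host.neg {z u : List Bool} {X N : Ground S} (hX : U.Host z X) (hN : U.VN u N)
    (w : List Bool) (h : ¬ Gt X (U.pre w N)) : ¬ Sublist (w ++ u) z := by
  intro hs
  obtain ⟨x, d, h1, h2, x1, x2, hx, hn, h3⟩ := hX
  apply h
  refine gt_of_sub h1 hx hn (hN.pre w) ?_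
  rw [← List.append_assoc]
  exact (h3 _).2 hs

lemma Host.mono {z z' : List Bool} {X X' : Ground S} (h : U.Host z X) (h' : U.Host z' X')
    (hge : Ge X X') : Sublist z' z := by
  obtain ⟨x, d, h1, h2⟩ := h
  obtain ⟨x', d', h1', h2'⟩ := h'
  exact h2.mono h2' (sub_of_ge hge h1 h1')

lemma Host.mono_cons {z z' : List Bool} {X X' : Ground S} (h : U.Host z X) (h' : U.Host z' X')
    (l : Bool) (hge : Ge X (U.pre [l] X')) : Sublist (l :: z') z := by
  obtain ⟨x, d, h1, h2⟩ := h
  obtain ⟨x', d', h1', h2'⟩ := h'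
  exact h2.mono_cons h2' (sub_of_ge hge h1 (h1'.pre [l]))

lemma VN.ge {u v : List Bool} {X Y : Ground S} (hX : U.VN u X) (hY : U.VN v Y) (h : Ge X Y) :
    Sublist v u := (append_right_iff _ _ _).1 (sub_of_ge h hX hY)

lemma VP.geN {u v : List Bool} {X Y : Ground S} (hX : U.VP u X) (hY : U.VN v Y) (h : Ge X Y) :
    Sublist v u := by
  obtain ⟨d, hX⟩ := hX
  exact tn_tp.1 (sub_of_ge h hX hY)

lemma VN.unique {u v : List Bool} {X : Ground S} (h : U.VN u X) (h' : U.VN v X) : u = v :=
  List.append_cancel_right (Gd.unique h h').1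

/-! ### canonical terms -/

lemma pre_pre (w u : List Bool) (X : Ground S) : U.pre w (U.pre u X) = U.pre (w ++ u) X := by
  induction w with
  | nil => rfl
  | cons x w ih => simp only [pre_cons, List.cons_append, ih]

lemma can_pos {u v : List Bool} (w : List Bool) (h : Sublist (w ++ v) u) :
    Ge (U.wd u) (U.pre w (U.wd v)) := by
  unfold wd
  rw [pre_pre]
  exact pre_ge h _

lemma can_neg {u v : List Bool} (w : List Bool) (h : ¬ Sublist (w ++ v) u) :
    ¬ Gt (U.wd (u ++ tp)) (U.pre w (U.wd (v ++ tn))) := by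
  intro hg
  have h1 := sub_of_gt hg (Gd_wd _) ((Gd_wd (v ++ tn)).pre w)
  rw [← List.append_assoc] at h1
  exact h (tn_tp.1 h1)

lemma VN_can (u : List Bool) : U.VN u (U.wd (u ++ tn)) := Gd_wd _
lemma VP_can (u : List Bool) : U.VP u (U.wd (u ++ tp)) := ⟨U.c, Gd_wd _⟩

lemma can_pp {u v : List Bool} (w : List Bool) (h : Sublist (w ++ v) u) :
    Ge (U.wd (u ++ tp)) (U.pre w (U.wd (v ++ tp))) := by
  refine can_pos w ?_
  rw [← List.append_assoc]
  exact h.append (List.Sublist.refl _)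

lemma can_pn {u v : List Bool} (h : Sublist v u) :
    Ge (U.wd (u ++ tp)) (U.wd (v ++ tn)) := can_pos [] (tn_tp.2 h)

lemma can_nn {u v : List Bool} (h : Sublist v u) :
    Ge (U.wd (u ++ tn)) (U.wd (v ++ tn)) := can_pos [] (h.append (List.Sublist.refl _))

/-! ### definability of comparisons -/

lemma ED_ge (w : List Bool) (i j : ℕ) : ED (fun v => Ge (v i) (U.pre w (v j))) :=
  (ED.ge (.var i) (U.preT w (.var j))).congr fun v => by rw [eval_preT]; rfl

lemma ED_ngt (w : List Bool) (i j : ℕ) : ED (fun v => ¬ Gt (v i) (U.pre w (v j))) :=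
  (ED.ngt (.var i) (U.preT w (.var j))).congr fun v => by rw [eval_preT]; rfl

/-! ### numbers -/

variable (U)

/-- numbers -/
def Num (Y : Ground S) : Prop := U.ClsN true [true, false] Y

/-- `Y'` has the same value as `Y` -/
def R1 (Y Y' : Ground S) : Prop :=
  U.ClsP true [true, false, true] Y' ∧ Ge Y' (U.pre [] Y) ∧ ¬ Gt Y' (U.pre [true] Y)

/-- `X` and `X'` have the same value as `Y` -/
def R2 (Y X X' : Ground S) : Prop :=
  U.ClsN true [false, true, false] X ∧ U.ClsP true [false, true, false, true] X' ∧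
    Ge X (U.pre [] Y) ∧ Ge X' (U.pre [] X) ∧ ¬ Gt X' (U.pre [true] Y)

/-- numbers of the second kind -/
def NumB (B : Ground S) : Prop := U.ClsN false [false] B

/-- `B'` has the same value as `B` -/
def RB (B B' : Ground S) : Prop :=
  U.ClsP false [false, true] B' ∧ Ge B' (U.pre [] B) ∧ ¬ Gt B' (U.pre [false] B)

variable {U}

lemma num_val {Y : Ground S} (h : U.Num Y) : ∃ p, U.VN (A1 p) Y := by
  obtain ⟨p, hp⟩ := clsN_sound h
  refine ⟨p, ?_⟩
  unfold VN A1
  rw [List.append_assoc]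
  exact hp

lemma numB_val {B : Ground S} (h : U.NumB B) : ∃ p, U.VN (replicate p false) B := clsN_sound h

lemma R1_sound {Y Y' : Ground S} {p : ℕ} (h : U.R1 Y Y') (hY : U.VN (A1 p) Y) :
    U.VP (A1 p) Y' := by
  obtain ⟨h1, h2, h3⟩ := h
  obtain ⟨p', d, h4⟩ := clsP_sound h1
  have h5 : U.VP (A1 p') Y' := ⟨d, by unfold A1; rw [List.append_assoc]; exact h4⟩
  have h6 : p ≤ p' := A1_le (h5.geN hY h2)
  have h7 : ¬ p + 1 ≤ p' := by
    intro h
    exact h5.host.neg hY [true] h3 (by
      have := A1_mono h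
      exact this)
  have : p' = p := by omega
  rwa [this] at h5

lemma R2_sound {Y X X' : Ground S} {p : ℕ} (h : U.R2 Y X X') (hY : U.VN (A1 p) Y) :
    U.VN (A2 p) X ∧ U.VP (A2 p) X' := by
  obtain ⟨h1, h2, h3, h4, h5⟩ := h
  obtain ⟨x, h6⟩ := clsN_sound h1
  obtain ⟨x', d, h7⟩ := clsP_sound h2
  have h8 : U.VN (A2 x) X := by unfold VN A2; rw [List.append_assoc]; exact h6
  have h9 : U.VP (A2 x') X' := ⟨d, by unfold A2; rw [List.append_assoc]; exact h7⟩
  have h10 : p ≤ x := A1_A2 (h8.ge hY h3)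
  have h11 : x ≤ x' := A2_le (h9.geN h8 h4)
  have h12 : ¬ p + 1 ≤ x' := by
    intro h
    refine h9.host.neg hY [true] h5 ?_
    have h13 : Sublist (A1 (p + 1)) (A2 x') := by
      rw [A2_eq]
      exact (A1_mono h).trans (List.sublist_append_left _ _)
    exact h13
  have e1 : x = p := by omega
  have e2 : x' = p := by omega
  rw [e1] at h8
  rw [e2] at h9
  exact ⟨h8, h9⟩

lemma RB_sound {B B' : Ground S} {q : ℕ} (h : U.RB B B') (hB : U.VN (replicate q false) B) :
    U.VP (replicate q false) B' := by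
  obtain ⟨h1, h2, h3⟩ := h
  obtain ⟨q', d, h4⟩ := clsP_sound h1
  have h5 : U.VP (replicate q' false) B' := ⟨d, h4⟩
  have h6 : q ≤ q' := (List.replicate_sublist_replicate false).1 (h5.geN hB h2)
  have h7 : ¬ q + 1 ≤ q' := by
    intro h
    exact h5.host.neg hB [false] h3 ((List.replicate_sublist_replicate false).2 h)
  have : q' = q := by omega
  rwa [this] at h5

lemma num_can (p : ℕ) : U.Num (U.wd (A1 p ++ tn)) := by
  have := clsN_wd (U := U) true [true, false] p
  unfold Num A1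
  rw [List.append_assoc]
  exact this

lemma numB_can (p : ℕ) : U.NumB (U.wd (replicate p false ++ tn)) :=
  clsN_wd (U := U) false [false] p

lemma R1_can (p : ℕ) : U.R1 (U.wd (A1 p ++ tn)) (U.wd (A1 p ++ tp)) := by
  refine ⟨?_, can_pn (List.Sublist.refl _), can_neg [true] ?_⟩
  · have := clsP_wd (U := U) true [true, false, true] p
    unfold A1
    rw [List.append_assoc]
    exact this
  · intro h
    have := A1_le (p := p + 1) h
    omega

lemma R2_can (p : ℕ) : U.R2 (U.wd (A1 p ++ tn)) (U.wd (A2 p ++ tn)) (U.wd (A2 p ++ tp)) := by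
  refine ⟨?_, ?_, can_nn ?_, can_pn (List.Sublist.refl _), can_neg [true] ?_⟩
  · have := clsN_wd (U := U) true [false, true, false] p
    unfold A2
    rw [List.append_assoc]
    exact this
  · have := clsP_wd (U := U) true [false, true, false, true] p
    unfold A2
    rw [List.append_assoc]
    exact this
  · rw [A2_eq]
    exact List.sublist_append_left _ _
  · intro h
    have := A1_A2 (p := p + 1) h
    omega

lemma RB_can (q : ℕ) : U.RB (U.wd (replicate q false ++ tn)) (U.wd (replicate q false ++ tp)) := by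
  refine ⟨clsP_wd (U := U) false [false, true] q, can_pn (List.Sublist.refl _),
    can_neg [false] ?_⟩
  intro h
  have := (List.replicate_sublist_replicate (m := q + 1) false).1 h
  omega

lemma ED_num (i : ℕ) : ED (fun v => U.Num (v i)) := ED_clsN _ _ i
lemma ED_numB (i : ℕ) : ED (fun v => U.NumB (v i)) := ED_clsN _ _ i

lemma ED_R1 (i j : ℕ) : ED (fun v => U.R1 (v i) (v j)) :=
  (ED_clsP _ _ j).and ((ED_ge [] j i).and (ED_ngt [true] j i))

lemma ED_R2 (i j k : ℕ) : ED (fun v => U.R2 (v i) (v j) (v k)) :=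
  (ED_clsN _ _ j).and ((ED_clsP _ _ k).and ((ED_ge [] j i).and ((ED_ge [] k j).and
    (ED_ngt [true] k i))))

lemma ED_RB (i j : ℕ) : ED (fun v => U.RB (v i) (v j)) :=
  (ED_clsP _ _ j).and ((ED_ge [] j i).and (ED_ngt [false] j i))

/-! ### addition -/

variable (U)

/-- body of the formula for addition -/
def AddB (P Q R R' Q' X X' T : Ground S) : Prop :=
  U.Num P ∧ U.Num Q ∧ U.Num R ∧ U.R1 R R' ∧ U.R1 Q Q' ∧ U.R2 P X X' ∧
  U.Cls2 true [true, false, true] T ∧
  Ge T (U.pre [] R') ∧ ¬ Gt T (U.pre [true] R) ∧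
  Ge T (U.pre [false] Q') ∧ ¬ Gt T (U.pre [false, true] Q) ∧
  Ge T (U.pre [] X') ∧ ¬ Gt T (U.pre [true] X)

/-- addition -/
def Add (P Q R : Ground S) : Prop := ∃ R' Q' X X' T, U.AddB P Q R R' Q' X X' T

variable {U}

lemma VP_cls2 {T : Ground S} (h : U.Cls2 true [true, false, true] T) :
    ∃ s t, U.VP (replicate s true ++ false :: (replicate t true ++ [false])) T := by
  obtain ⟨s, t, d, h⟩ := cls2_sound h
  refine ⟨s, t, d, ?_⟩
  have e : replicate s true ++ false :: (replicate t true ++ [false]) ++ tp =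
      replicate s true ++ false :: (replicate t true ++ (!true) :: [true, false, true]) := by simp
  rw [e]
  exact h

theorem Add.sound {P Q R : Ground S} (h : U.Add P Q R) :
    ∃ p q, U.VN (A1 p) P ∧ U.VN (A1 q) Q ∧ U.VN (A1 (p + q)) R := by
  obtain ⟨R', Q', X, X', T, hP, hQ, hR, h1, h2, h3, h4, h5, h6, h7, h8, h9, h10⟩ := h
  obtain ⟨p, hP⟩ := num_val hP
  obtain ⟨q, hQ⟩ := num_val hQ
  obtain ⟨r, hR⟩ := num_val hR
  obtain ⟨s, t, hT⟩ := VP_cls2 h4
  obtain ⟨hX, hX'⟩ := R2_sound h3 hP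
  have a1 := add_one.1 (hT.host.pos (R1_sound h1 hR) [] h5)
  have a2 : ¬ r + 1 ≤ s + t := fun hh =>
    hT.host.neg hR [true] h6 ((add_one (r := r + 1)).2 hh)
  have b1 := add_two.1 (hT.host.pos (R1_sound h2 hQ) [false] h7)
  have b2 : ¬ q + 1 ≤ t := fun hh =>
    hT.host.neg hQ [false, true] h8 ((add_two (q := q + 1)).2 hh)
  have c1 := add_three.1 (hT.host.pos hX' [] h9)
  have c2 : ¬ p + 1 ≤ s := fun hh =>
    hT.host.neg hX [true] h10 ((add_three (p := p + 1)).2 hh)
  have e : r = p + q := by omega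
  subst e
  exact ⟨p, q, hP, hQ, hR⟩

theorem Add.can (p q : ℕ) : U.Add (U.wd (A1 p ++ tn)) (U.wd (A1 q ++ tn))
    (U.wd (A1 (p + q) ++ tn)) := by
  refine ⟨U.wd (A1 (p + q) ++ tp), U.wd (A1 q ++ tp), U.wd (A2 p ++ tn), U.wd (A2 p ++ tp),
    U.wd (replicate p true ++ false :: (replicate q true ++ [false]) ++ tp),
    num_can _, num_can _, num_can _, R1_can _, R1_can _, R2_can _, ?_, can_pp [] ?_,
    can_neg [true] ?_, can_pp [false] ?_, can_neg [false, true] ?_, can_pp [] ?_,
    can_neg [true] ?_⟩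
  · have := cls2_wd (U := U) true [true, false, true] p q
    have e : replicate p true ++ false :: (replicate q true ++ [false]) ++ tp =
      replicate p true ++ false :: (replicate q true ++ (!true) :: [true, false, true]) := by simp
    rw [e]
    exact this
  · exact add_one.2 le_rfl
  · intro h
    have := (add_one (r := p + q + 1)).1 h
    omega
  · exact add_two.2 le_rfl
  · intro h
    have := (add_two (q := q + 1)).1 h
    omega
  · exact add_three.2 le_rfl
  · intro h
    have := (add_three (p := p + 1)).1 h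
    omega

lemma ED_add (i j k : ℕ) : ED (fun v => U.Add (v i) (v j) (v k)) := by
  have h : ED (fun v => U.AddB (v (i + 5)) (v (j + 5)) (v (k + 5)) (v 4) (v 3) (v 2) (v 1)
      (v 0)) :=
    (ED_num _).and ((ED_num _).and ((ED_num _).and ((ED_R1 _ _).and ((ED_R1 _ _).and
    ((ED_R2 _ _ _).and ((ED_cls2 _ _ _).and ((ED_ge _ _ _).and ((ED_ngt _ _ _).and
    ((ED_ge _ _ _).and ((ED_ngt _ _ _).and ((ED_ge _ _ _).and (ED_ngt _ _ _))))))))))))
  exact h.ex.ex.ex.ex.ex

end Setup

end Pool.Agent.MP_18cdfa_lc
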