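import Mathlib

/-!
# Words over two letters and subwords
-/

set_option autoImplicit false

namespace Pool.Agent.MP_18cdfa_lc

open List (replicate Sublist)

/-! ### runs -/

lemma run_head (e : Bool) (x : List Bool) (h : (!e) ∈ x) :
    ∃ p x1, x = replicate p e ++ (!e) :: x1 := by
  induction x with
  | nil => simp at h
  | cons y x ih =>
    by_cases hy : y = e
    · subst hy
      have h' : (!y) ∈ x := by
        rcases List.mem_cons.1 h with h | h
        · cases y <;> simp at h
        · exact h
      obtain ⟨p, x1, hx⟩ := ih h'
      exact ⟨p + 1, x1, by rw [hx, List.replicate_succ, List.cons_append]⟩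
    · refine ⟨0, x, ?_⟩
      have : y = !e := by cases y <;> cases e <;> simp_all
      rw [this]
      rfl

lemma run_sub (e : Bool) (p : ℕ) (x1 w : List Bool) :
    Sublist ((!e) :: w) (replicate p e ++ (!e) :: x1) ↔ Sublist w x1 := by
  induction p with
  | zero => exact List.cons_sublist_cons
  | succ p ih =>
    rw [List.replicate_succ, List.cons_append, ← ih]
    constructor
    · intro h
      rcases List.sublist_cons_iff.1 h with h | ⟨r, hr, _⟩
      · exact h
      · exfalso
        have := (List.cons.inj hr).1
        cases e <;> simp at this
    · intro h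
      exact h.cons e

lemma length_counts (x : List Bool) : x.length = x.count false + x.count true :=
  (List.count_false_add_count_true x).symm

lemma eq_of_counts {s x : List Bool} (h : Sublist s x) (hf : x.count false ≤ s.count false)
    (ht : x.count true ≤ s.count true) : x = s := by
  refine (h.eq_of_length ?_).symm
  have h1 := h.length_le
  have h2 := length_counts x
  have h3 := length_counts s
  omega

lemma rep_sub (y : Bool) (n : ℕ) (x : List Bool) : Sublist (replicate n y) x ↔ n ≤ x.count y :=
  List.replicate_sublist_iff

lemma cls {e : Bool} {s x : List Bool} (h : Sublist ((!e) :: s) x)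
    (hf : ¬ Sublist ((!e) :: replicate (s.count false + 1) false) x)
    (ht : ¬ Sublist ((!e) :: replicate (s.count true + 1) true) x) :
    ∃ p, x = replicate p e ++ (!e) :: s := by
  obtain ⟨p, x1, rfl⟩ := run_head e x (h.subset (by simp))
  rw [run_sub] at h hf ht
  rw [rep_sub] at hf ht
  exact ⟨p, by rw [eq_of_counts h (by omega) (by omega)]⟩

lemma cls_neg (e y : Bool) (s : List Bool) (p : ℕ) :
    ¬ Sublist ((!e) :: replicate (s.count y + 1) y) (replicate p e ++ (!e) :: s) := by
  rw [run_sub, rep_sub]
  omega

lemma cls2 {e : Bool} {s x : List Bool} (h : Sublist (false :: (!e) :: s) x)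
    (hf : ¬ Sublist (false :: (!e) :: replicate (s.count false + 1) false) x)
    (ht : ¬ Sublist (false :: (!e) :: replicate (s.count true + 1) true) x) :
    ∃ p q, x = replicate p true ++ false :: (replicate q e ++ (!e) :: s) := by
  obtain ⟨p, x1, rfl⟩ := run_head true x (h.subset (by simp))
  have h' := (run_sub true p x1 _).1 h
  have hf' := fun hh => hf ((run_sub true p x1 _).2 hh)
  have ht' := fun hh => ht ((run_sub true p x1 _).2 hh)
  obtain ⟨q, hq⟩ := cls h' hf' ht'
  exact ⟨p, q, by rw [hq]; rfl⟩

lemma cls2_neg (e y : Bool) (s : List Bool) (p q : ℕ) :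
    ¬ Sublist (false :: (!e) :: replicate (s.count y + 1) y)
      (replicate p true ++ false :: (replicate q e ++ (!e) :: s)) := by
  intro h
  exact cls_neg e y s q ((run_sub true p _ _).1 h)

/-! ### last letters -/

lemma append_right_iff (u v s : List Bool) : Sublist (u ++ s) (v ++ s) ↔ Sublist u v :=
  List.append_sublist_append_right s

lemma sub_snoc_ne {u w : List Bool} {x y : Bool} (hxy : x ≠ y) :
    Sublist (u ++ [x]) (w ++ [y]) ↔ Sublist (u ++ [x]) w := by
  constructor
  · intro h
    have h' := List.reverse_sublist.2 h
    rw [List.reverse_append, List.reverse_append] at h'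
    change Sublist (x :: u.reverse) (y :: w.reverse) at h'
    cases h' with
    | cons _ h2 =>
      have := List.reverse_sublist.2 h2
      simpa using this
    | cons_cons _ h2 => exact absurd rfl hxy
  · intro h
    exact h.trans (List.sublist_append_left _ _)

lemma sub_snoc_notin {u w v : List Bool} {x : Bool} (hv : x ∉ v) :
    Sublist (u ++ [x]) (w ++ v) ↔ Sublist (u ++ [x]) w := by
  induction v using List.reverseRecOn with
  | nil => rw [List.append_nil]
  | append_singleton v y ih =>
    have hy : x ≠ y := by
      rintro rfl
      exact hv (by simp)
    have hv' : x ∉ v := fun h => hv (by simp [h])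
    rw [← List.append_assoc, sub_snoc_ne hy, ih hv']

lemma strip (x : Bool) (w : List Bool) (h : x ∈ w) :
    ∃ w1 w2, w = w1 ++ x :: w2 ∧ x ∉ w2 ∧ ∀ u, Sublist (u ++ [x]) w ↔ Sublist u w1 := by
  obtain ⟨p, x1, hx⟩ := run_head (!x) w.reverse (by simpa using h)
  rw [Bool.not_not] at hx
  have hw : w = x1.reverse ++ x :: replicate p (!x) := by
    have := congrArg List.reverse hx
    rw [List.reverse_reverse, List.reverse_append, List.reverse_cons, List.reverse_replicate] at this
    rw [this, List.append_assoc]
    rfl
  have hn : x ∉ replicate p (!x) := by
    intro hm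
    have := List.eq_of_mem_replicate hm
    cases x <;> simp at this
  refine ⟨x1.reverse, replicate p (!x), hw, hn, fun u => ?_⟩
  have e : w = (x1.reverse ++ [x]) ++ replicate p (!x) := by rw [hw]; simp
  rw [e, sub_snoc_notin hn, append_right_iff]

/-! ### the inner part of a word -/

/-- tail of the words of the negative tests -/
abbrev tn : List Bool := [true, false]
/-- tail of the words of the positive tests -/
abbrev tp : List Bool := [true, false, true]

/-- `y` is the inner part of `x` -/
def Circ (x y : List Bool) : Prop :=
  (∀ u, Sublist (u ++ tp) x ↔ Sublist u y) ∧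
    ∃ x1 x2, x = x1 ++ true :: x2 ∧ true ∉ x2 ∧ ∀ u, Sublist (u ++ tn) x1 ↔ Sublist u y

lemma exists_circ {x : List Bool} (h : Sublist tp x) : ∃ y, Circ x y := by
  obtain ⟨x1, x2, hx, hx2, h1⟩ := strip true x (h.subset (by simp))
  have hb : Sublist [true, false] x1 := (h1 [true, false]).1 h
  obtain ⟨x3, x4, hx3, hx4, h2⟩ := strip false x1 (hb.subset (by simp))
  have hc : Sublist [true] x3 := (h2 [true]).1 hb
  obtain ⟨x5, x6, hx5, hx6, h3⟩ := strip true x3 (hc.subset (by simp))
  have h4 : ∀ u, Sublist (u ++ tn) x1 ↔ Sublist u x5 := by
    intro u
    rw [← h3, ← h2, List.append_assoc]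
    rfl
  refine ⟨x5, fun u => ?_, x1, x2, hx, hx2, h4⟩
  rw [← h4, ← h1, List.append_assoc]
  rfl

lemma circ_word (u : List Bool) : Circ (u ++ tp) u := by
  refine ⟨fun v => append_right_iff v u tp, u ++ tn, [], by simp, by simp,
    fun v => append_right_iff v u tn⟩

lemma tn_tp {u v : List Bool} : Sublist (u ++ tn) (v ++ tp) ↔ Sublist u v := by
  have e1 : v ++ tp = (v ++ tn) ++ [true] := by simp
  have e2 : u ++ tn = (u ++ [true]) ++ [false] := by simp
  rw [e1, e2, sub_snoc_ne (by decide), ← e2, append_right_iff]

lemma Circ.mono {x y x' y' : List Bool} (h : Circ x y) (h' : Circ x' y') (hs : Sublist x' x) :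
    Sublist y' y := by
  have h1 : Sublist (y' ++ tp) x' := (h'.1 y').2 (List.Sublist.refl _)
  exact (h.1 y').1 (h1.trans hs)

lemma Circ.mono_cons {x y x' y' : List Bool} {l : Bool} (h : Circ x y) (h' : Circ x' y')
    (hs : Sublist (l :: x') x) : Sublist (l :: y') y := by
  have h1 : Sublist (y' ++ tp) x' := (h'.1 y').2 (List.Sublist.refl _)
  exact (h.1 (l :: y')).1 ((h1.cons_cons l).trans hs)

/-! ### sequences of blocks -/

/-- the numbers of `true` before the letters `false`, and after the last one -/
def bl : List Bool → List ℕ
  | [] => [0]
  | true :: z => (bl z).modifyHead (· + 1)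
  | false :: z => 0 :: bl z

lemma bl_length (z : List Bool) : (bl z).length = z.count false + 1 := by
  induction z with
  | nil => rfl
  | cons y z ih => cases y <;> simp [bl, ih]

lemma bl_ne (z : List Bool) : bl z ≠ [] := by
  intro h
  have := bl_length z
  rw [h] at this
  simp at this

lemma bl_sum (z : List Bool) : (bl z).sum = z.count true := by
  induction z with
  | nil => rfl
  | cons y z ih =>
    cases y with
    | false => simp [bl, ih]
    | true =>
      simp only [bl]
      cases h : bl z with
      | nil => exact absurd h (bl_ne z)
      | cons a l =>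
        rw [h] at ih
        simp only [List.modifyHead_cons, List.sum_cons] at ih ⊢
        simp
        omega

/-- comparison of blocks -/
lemma bl_le {u z : List Bool} (h : Sublist u z) :
    u.count false = z.count false → List.Forall₂ (· ≤ ·) (bl u) (bl z) := by
  induction h with
  | slnil => intro _; exact List.Forall₂.cons le_rfl List.Forall₂.nil
  | @cons u z y h ih =>
    intro hc
    cases y with
    | false =>
      exfalso
      have := h.count_le false
      simp at hc
      omega
    | true =>
      have hc' : u.count false = z.count false := by simpa using hc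
      have := ih hc'
      simp only [bl]
      cases hz : bl z with
      | nil => exact absurd hz (bl_ne z)
      | cons a l =>
        rw [hz] at this
        cases hu : bl u with
        | nil => exact absurd hu (bl_ne u)
        | cons b m =>
          rw [hu] at this
          rw [List.forall₂_cons] at this
          exact List.Forall₂.cons (by simp only; omega) this.2
  | @cons_cons u z y h ih =>
    intro hc
    cases y with
    | false =>
      have hc' : u.count false = z.count false := by simpa using hc
      exact List.Forall₂.cons le_rfl (ih hc')
    | true =>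
      have hc' : u.count false = z.count false := by simpa using hc
      have := ih hc'
      simp only [bl]
      cases hz : bl z with
      | nil => exact absurd hz (bl_ne z)
      | cons a l =>
        rw [hz] at this
        cases hu : bl u with
        | nil => exact absurd hu (bl_ne u)
        | cons b m =>
          rw [hu] at this
          rw [List.forall₂_cons] at this
          exact List.Forall₂.cons (by simp only; omega) this.2

lemma bl_replicate (i : ℕ) : bl (replicate i true) = [i] := by
  induction i with
  | zero => rfl
  | succ i ih => rw [List.replicate_succ]; simp [bl, ih]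

lemma bl_append_false (z : List Bool) (i : ℕ) :
    bl (z ++ false :: replicate i true) = bl z ++ [i] := by
  induction z with
  | nil => simp [bl, bl_replicate]
  | cons y z ih =>
    cases y with
    | false => simp [bl, ih]
    | true =>
      simp only [List.cons_append, bl, ih]
      cases hz : bl z with
      | nil => exact absurd hz (bl_ne z)
      | cons a l => simp

lemma bl_first (i q : ℕ) : ∃ l, bl (replicate i true ++ replicate q false) = i :: l := by
  induction i with
  | zero =>
    cases q with
    | zero => exact ⟨[], rfl⟩
    | succ q => exact ⟨_, rfl⟩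
  | succ i ih =>
    obtain ⟨l, hl⟩ := ih
    exact ⟨l, by rw [List.replicate_succ, List.cons_append]; simp [bl, hl]⟩

/-- nondecreasing sequences between `i` and `i` -/
lemma const_of_shift (i : ℕ) (l : List ℕ) (hl : l ≠ [])
    (h1 : List.Forall₂ (· ≤ ·) (0 :: l) (l ++ [i])) (h2 : ∃ a m, l = a :: m ∧ i ≤ a) :
    l = replicate l.length i := by
  obtain ⟨a, m, rfl, ha⟩ := h2
  clear hl
  induction m generalizing a with
  | nil =>
    rw [List.cons_append, List.forall₂_cons] at h1
    have h3 := h1.2
    rw [List.nil_append, List.forall₂_cons] at h3
    have : a = i := le_antisymm h3.1 ha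
    rw [this]
    rfl
  | cons b m ih =>
    rw [List.cons_append, List.forall₂_cons] at h1
    have h3 := h1.2
    rw [List.cons_append, List.forall₂_cons] at h3
    have h4 := ih b (le_trans ha h3.1) (List.Forall₂.cons (Nat.zero_le _) h3.2)
    have hb : b = i := by
      have := congrArg List.head? h4
      simpa [List.replicate_succ] using this
    have h5 : a = i := le_antisymm (by rw [← hb]; exact h3.1) ha
    rw [List.length_cons, List.replicate_succ, ← h4, h5]

/-- the word lemma for multiplication -/
lemma shift_word (i : ℕ) (z : List Bool)
    (h1 : Sublist (false :: z) (z ++ false :: replicate i true))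
    (h2 : Sublist (replicate i true ++ replicate (z.count false) false) z) :
    z.count true = i * (z.count false + 1) := by
  have hc : (false :: z).count false = (z ++ false :: replicate i true).count false := by
    simp [List.count_replicate]
  have h3 := bl_le h1 hc
  rw [bl_append_false] at h3
  have hc2 : (replicate i true ++ replicate (z.count false) false).count false =
      z.count false := by
    simp [List.count_replicate]
  have h4 := bl_le h2 hc2
  obtain ⟨l, hl⟩ := bl_first i (z.count false)
  rw [hl] at h4
  have h5 := const_of_shift i (bl z) (bl_ne z) h3 (by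
    cases hz : bl z with
    | nil => exact absurd hz (bl_ne z)
    | cons a m =>
      rw [hz, List.forall₂_cons] at h4
      exact ⟨a, m, rfl, h4.1⟩)
  have h6 := bl_sum z
  rw [h5, List.sum_replicate, bl_length, smul_eq_mul] at h6
  rw [← h6, mul_comm]

end Pool.Agent.MP_18cdfa_lc
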