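import Pool.Agent.MP_18cdfa_lc.ED
import Pool.Agent.MP_18cdfa_lc.Words

/-!
# Definability of the good terms, and tests with fixed words
-/

set_option autoImplicit false

namespace Pool.Agent.MP_18cdfa_lc

variable {S : Sig}

namespace Setup

variable (U : Setup S)

/-- constant term, or the least constant -/
noncomputable def Kc (d : Fin S.m) : Ground S :=
  if h : S.ar d = 0 then K d h else U.C

variable {U}

lemma Kc_eq {d : Fin S.m} (h : S.ar d = 0) : U.Kc d = K d h := dif_pos h

lemma exists_const_le (t : Ground S) : ∃ d, ∃ hd : S.ar d = 0, Ge t (K d hd) := by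
  induction t with
  | app f t ih =>
    by_cases hf : S.ar f = 0
    · exact ⟨f, hf, Or.inr (eq_K f hf t)⟩
    · obtain ⟨d, hd, h⟩ := ih ⟨0, by omega⟩
      exact ⟨d, hd, Or.inl (Gt.of_ge ⟨0, by omega⟩ h)⟩

/-- a constant below a term -/
noncomputable def kf (t : Ground S) : Fin S.m := (exists_const_le t).choose

lemma kf_ar (t : Ground S) : S.ar (kf t) = 0 := (exists_const_le t).choose_spec.choose

lemma kf_le (t : Ground S) : Ge t (U.Kc (kf t)) := by
  rw [Kc_eq (kf_ar t)]
  exact (exists_const_le t).choose_spec.choose_spec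

variable (U)

/-- truncation -/
noncomputable def tr : Ground S → Ground S
  | .app f s => .app f (fun i => U.Kc (kf (s i)))

lemma tr_le (t : Ground S) : Ge t (U.tr t) := by
  cases t with
  | app f s => exact mono f _ _ fun i => kf_le (s i)

/-- good terms -/
def Good (X : Ground S) : Prop := ∃ w d, U.Gd w d X

variable {U}

lemma tr_eq_C {t : Ground S} (h : U.tr t = U.C) : t = U.C := by
  cases t with
  | app f s =>
    unfold tr at h
    obtain ⟨h1, _⟩ := Ground.app.inj h
    subst h1
    exact eq_K U.c U.hc s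

lemma good_of_tr (f : Fin S.m) (s : Fin (S.ar f) → Ground S)
    (h : U.Good (.app f (fun i => U.tr (s i)))) (hs : ∀ i, U.Good (s i)) : U.Good (.app f s) := by
  obtain ⟨w, d, h⟩ := h
  rcases h.inv with ⟨_, _, h4⟩ | ⟨h1, h2, h3, X, h4, h5⟩ | ⟨x, v, X, h1, h2, h3, h4⟩
  · exact ⟨[], f, Gd.const f s h4⟩
  · obtain ⟨w', d', h6⟩ := hs ⟨0, by omega⟩
    refine ⟨w', d', Gd.low f s _ w' d' h1 h2 h3 (fun i => ?_) h6⟩
    have : Subsingleton (Fin (S.ar f)) := Fin.subsingleton_iff_le_one.2 h1.le
    rw [Subsingleton.elim i]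
  · subst h1
    obtain ⟨w', d', h6⟩ := hs (U.last x)
    refine ⟨x :: w', d', Gd.letter x s (s (U.last x)) w' d' ?_ h6⟩
    funext j
    rcases U.args_cases x (s (U.last x)) j with h7 | h7
    · rw [h7.2]
      rcases h4 j with h8 | h8
      · exact tr_eq_C h8.2
      · exact absurd h8.1 (by omega)
    · rw [h7.2, h7.1]

/-- finitely many terms exclude all terms that are not good -/
theorem exists_bad : ∃ l : List (Ground S), (∀ m ∈ l, ¬ U.Good m) ∧
    ∀ t, ¬ U.Good t → ∃ m ∈ l, Ge t m := by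
  classical
  let T := Σ f : Fin S.m, (Fin (S.ar f) → Σ g : Fin S.m, (Fin (S.ar g) → Fin S.m))
  let F : T → Ground S := fun p =>
    .app p.1 (fun i => .app (p.2 i).1 (fun j => U.Kc ((p.2 i).2 j)))
  have hfin : (Set.range F).Finite := Set.finite_range F
  refine ⟨(hfin.toFinset.filter fun m => ¬ U.Good m).toList, ?_, ?_⟩
  · intro m hm
    rw [Finset.mem_toList, Finset.mem_filter] at hm
    exact hm.2
  · intro t
    induction t with
    | app f s ih =>
      intro ht
      by_cases hs : ∀ i, U.Good (s i)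
      · refine ⟨.app f (fun i => U.tr (s i)), ?_, mono f _ _ fun i => U.tr_le (s i)⟩
        rw [Finset.mem_toList, Finset.mem_filter]
        refine ⟨?_, fun hg => ht (good_of_tr f s hg hs)⟩
        rw [Set.Finite.mem_toFinset]
        have : ∀ i, ∃ q : Σ g : Fin S.m, (Fin (S.ar g) → Fin S.m),
            U.tr (s i) = .app q.1 (fun j => U.Kc (q.2 j)) := by
          intro i
          cases s i with
          | app g r => exact ⟨⟨g, fun j => kf (r j)⟩, rfl⟩
        choose q hq using this
        refine ⟨⟨f, q⟩, ?_⟩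
        simp only [F]
        congr 1
        funext i
        exact (hq i).symm
      · push Not at hs
        obtain ⟨i, hi⟩ := hs
        obtain ⟨m, hm, hle⟩ := ih i hi
        exact ⟨m, hm, Or.inl (Gt.of_ge i hle)⟩

variable (U)

/-- the list of the excluded terms -/
noncomputable def bad : List (Ground S) := (exists_bad (U := U)).choose

/-- the formula for the good terms -/
def GoodF (X : Ground S) : Prop := ∀ m ∈ U.bad, ¬ Ge X m

variable {U}

lemma good_of {X : Ground S} (h : U.GoodF X) : U.Good X := by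
  by_contra hne
  obtain ⟨m, hm, hle⟩ := (exists_bad (U := U)).choose_spec.2 X hne
  exact h m hm hle

/-- words as terms -/
abbrev wd (U : Setup S) (w : List Bool) : Ground S := U.pre w U.C

lemma Gd_wd (w : List Bool) : U.Gd w U.c (U.wd w) := by
  have := (Gd_C (U := U)).pre w
  rwa [List.append_nil] at this

lemma goodF_wd (w : List Bool) : U.GoodF (U.wd w) := by
  intro m hm hge
  apply (exists_bad (U := U)).choose_spec.1 m hm
  rcases hge with h | h
  · obtain ⟨w', d', h1, _⟩ := canon_down h (w := w) rfl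
    exact ⟨w', d', h1⟩
  · rw [← h]
    exact ⟨w, U.c, Gd_wd w⟩

lemma ED_goodF (i : ℕ) : ED (fun v => U.GoodF (v i)) := by
  refine (ED.forall_mem U.bad (fun m v => ¬ Ge (v i) m) fun m _ => ?_)
  refine (ED.nge (.var i) m.tm).congr fun v => ?_
  rw [Ground.eval_tm]
  rfl

/-! ### fixed tests -/

variable (U)

/-- positive test -/
def Pos (w : List Bool) (X : Ground S) : Prop := Ge X (U.wd w)

/-- negative test -/
def Neg (w : List Bool) (X : Ground S) : Prop := ∀ d ∈ List.finRange S.m, U.Kok d →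
  ¬ Ge X (U.pre w (U.Kc d))

/-- test for the leaf -/
def Lf (w : List Bool) (X : Ground S) : Prop := ∀ d ∈ List.finRange S.m, U.Kok d ∧ d ≠ U.c →
  ¬ Ge X (U.pre w (U.Kc d))

variable {U}

lemma Gd_pre_Kc (w : List Bool) {d : Fin S.m} (hd : U.Kok d) : U.Gd w d (U.pre w (U.Kc d)) := by
  rw [Kc_eq hd.1]
  have := (Gd_K d hd).pre w
  rwa [List.append_nil] at this

lemma pos_sound {w x : List Bool} {d : Fin S.m} {X : Ground S} (hX : U.Gd x d X)
    (h : U.Pos w X) : List.Sublist w x := sub_of_ge h hX (Gd_wd w)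

lemma neg_sound {w x : List Bool} {d : Fin S.m} {X : Ground S} (hX : U.Gd x d X)
    (h : U.Neg w X) : ¬ List.Sublist w x := by
  intro hs
  have := hX.ge_pre hs
  rw [← Kc_eq (U := U) hX.kok.1] at this
  exact h d (List.mem_finRange d) hX.kok this

lemma lf_sound {w x : List Bool} {d : Fin S.m} {X : Ground S} (hX : U.Gd x d X)
    (hw : List.Sublist w x) (h : U.Lf w X) : d = U.c := by
  by_contra hne
  have := hX.ge_pre hw
  rw [← Kc_eq (U := U) hX.kok.1] at this
  exact h d (List.mem_finRange d) ⟨hX.kok, hne⟩ this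

lemma pos_wd {w x : List Bool} (h : List.Sublist w x) : U.Pos w (U.wd x) := pre_ge h _

lemma neg_wd {w x : List Bool} (h : ¬ List.Sublist w x) : U.Neg w (U.wd x) := by
  intro d _ hd hge
  exact h (sub_of_ge hge (Gd_wd x) (Gd_pre_Kc w hd))

lemma lf_wd {w x : List Bool} (h : ∀ l, ¬ List.Sublist (w ++ [l]) x) : U.Lf w (U.wd x) := by
  intro d _ hd hge
  rcases hge with hge | hge
  · obtain ⟨w', d', h1, h2⟩ := canon_down hge (w := x) rfl
    obtain ⟨h3, h4⟩ := h1.unique (Gd_pre_Kc w hd.1)
    subst h3 h4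
    rcases h2 with h2 | ⟨l, h2⟩
    · exact hd.2 h2
    · exact h l h2
  · have h1 := Gd_pre_Kc w hd.1
    rw [← hge] at h1
    exact hd.2 (h1.unique (Gd_wd x)).2

lemma ED_pos (w : List Bool) (i : ℕ) : ED (fun v => U.Pos w (v i)) := by
  refine (ED.ge (.var i) (U.wd w).tm).congr fun v => ?_
  rw [Ground.eval_tm]
  rfl

lemma ED_neg (w : List Bool) (i : ℕ) : ED (fun v => U.Neg w (v i)) := by
  refine (ED.forall_mem (List.finRange S.m)
    (fun d v => U.Kok d → ¬ Ge (v i) (U.pre w (U.Kc d))) fun d _ => ?_)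
  refine ED.imp_const _ ((ED.nge (.var i) (U.pre w (U.Kc d)).tm).congr fun v => ?_)
  rw [Ground.eval_tm]
  rfl

lemma ED_lf (w : List Bool) (i : ℕ) : ED (fun v => U.Lf w (v i)) := by
  refine (ED.forall_mem (List.finRange S.m)
    (fun d v => U.Kok d ∧ d ≠ U.c → ¬ Ge (v i) (U.pre w (U.Kc d))) fun d _ => ?_)
  refine ED.imp_const _ ((ED.nge (.var i) (U.pre w (U.Kc d)).tm).congr fun v => ?_)
  rw [Ground.eval_tm]
  rfl

/-! ### classes of words -/

variable (U)

/-- words with a run of `e` followed by `(!e) :: s` -/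
def ClsP (e : Bool) (s : List Bool) (X : Ground S) : Prop :=
  U.GoodF X ∧ U.Pos ((!e) :: s) X ∧
    U.Neg ((!e) :: List.replicate (s.count false + 1) false) X ∧
    U.Neg ((!e) :: List.replicate (s.count true + 1) true) X

/-- the same, with the leaf `c` -/
def ClsN (e : Bool) (s : List Bool) (X : Ground S) : Prop :=
  U.ClsP e s X ∧ U.Lf ((!e) :: s) X

/-- words with a run of `true`, then `false`, then a run of `e` followed by `(!e) :: s` -/
def Cls2 (e : Bool) (s : List Bool) (X : Ground S) : Prop :=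
  U.GoodF X ∧ U.Pos (false :: (!e) :: s) X ∧
    U.Neg (false :: (!e) :: List.replicate (s.count false + 1) false) X ∧
    U.Neg (false :: (!e) :: List.replicate (s.count true + 1) true) X

variable {U}

lemma clsP_sound {e : Bool} {s : List Bool} {X : Ground S} (h : U.ClsP e s X) :
    ∃ p d, U.Gd (List.replicate p e ++ (!e) :: s) d X := by
  obtain ⟨h0, h1, h2, h3⟩ := h
  obtain ⟨x, d, hX⟩ := good_of h0
  obtain ⟨p, rfl⟩ := cls (pos_sound hX h1) (neg_sound hX h2) (neg_sound hX h3)
  exact ⟨p, d, hX⟩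

lemma clsN_sound {e : Bool} {s : List Bool} {X : Ground S} (h : U.ClsN e s X) :
    ∃ p, U.Gd (List.replicate p e ++ (!e) :: s) U.c X := by
  obtain ⟨p, d, hX⟩ := clsP_sound h.1
  have := lf_sound hX (List.sublist_append_right _ _) h.2
  subst this
  exact ⟨p, hX⟩

lemma cls2_sound {e : Bool} {s : List Bool} {X : Ground S} (h : U.Cls2 e s X) :
    ∃ p q d, U.Gd (List.replicate p true ++ false :: (List.replicate q e ++ (!e) :: s)) d X := by
  obtain ⟨h0, h1, h2, h3⟩ := h
  obtain ⟨x, d, hX⟩ := good_of h0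
  obtain ⟨p, q, rfl⟩ := cls2 (pos_sound hX h1) (neg_sound hX h2) (neg_sound hX h3)
  exact ⟨p, q, d, hX⟩

lemma clsP_wd (e : Bool) (s : List Bool) (p : ℕ) :
    U.ClsP e s (U.wd (List.replicate p e ++ (!e) :: s)) :=
  ⟨goodF_wd _, pos_wd (List.sublist_append_right _ _), neg_wd (cls_neg e false s p),
    neg_wd (cls_neg e true s p)⟩

lemma clsN_wd (e : Bool) (s : List Bool) (p : ℕ) :
    U.ClsN e s (U.wd (List.replicate p e ++ (!e) :: s)) := by
  refine ⟨clsP_wd e s p, lf_wd fun l hl => ?_⟩
  rw [List.cons_append, run_sub] at hl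
  have := hl.length_le
  simp at this

lemma cls2_wd (e : Bool) (s : List Bool) (p q : ℕ) :
    U.Cls2 e s (U.wd (List.replicate p true ++ false :: (List.replicate q e ++ (!e) :: s))) := by
  refine ⟨goodF_wd _, pos_wd ?_, neg_wd (cls2_neg e false s p q), neg_wd (cls2_neg e true s p q)⟩
  exact (run_sub true p _ _).2 (List.sublist_append_right _ _)

lemma ED_clsP (e : Bool) (s : List Bool) (i : ℕ) : ED (fun v => U.ClsP e s (v i)) :=
  (ED_goodF i).and ((ED_pos _ i).and ((ED_neg _ i).and (ED_neg _ i)))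

lemma ED_clsN (e : Bool) (s : List Bool) (i : ℕ) : ED (fun v => U.ClsN e s (v i)) :=
  (ED_clsP e s i).and (ED_lf _ i)

lemma ED_cls2 (e : Bool) (s : List Bool) (i : ℕ) : ED (fun v => U.Cls2 e s (v i)) :=
  (ED_goodF i).and ((ED_pos _ i).and ((ED_neg _ i).and (ED_neg _ i)))

end Setup

end Pool.Agent.MP_18cdfa_lc
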