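import Pool.Agent.MP_18cdfa_lc.Defs

/-!
# The recursive path ordering with status: general facts
-/

set_option autoImplicit false

namespace Pool.Agent.MP_18cdfa_lc

variable {S : Sig}

lemma Eqv.refl (X : Ground S) : Eqv X X := by
  induction X with
  | app f t ih => exact Eqv.app f t t 1 (fun _ => rfl) (fun i => ih i)

/-- greater or equal -/
def Ge (X Y : Ground S) : Prop := Gt X Y ∨ X = Y

lemma Gt.of_ge {f : Fin S.m} {s : Fin (S.ar f) → Ground S} {t : Ground S} (i : Fin (S.ar f))
    (h : Ge (s i) t) : Gt (.app f s) t := by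
  rcases h with h | h
  · exact Gt.sub f s t i h
  · exact Gt.subEqv f s t i (h ▸ Eqv.refl _)

/-- monotonicity -/
lemma mono (f : Fin S.m) (s t : Fin (S.ar f) → Ground S) (h : ∀ i, Ge (s i) (t i)) :
    Ge (.app f s) (.app f t) := by
  classical
  by_cases hst : s = t
  · right
    rw [hst]
  left
  have hall : ∀ j, Gt (.app f s) (t j) := fun j => Gt.of_ge j (h j)
  let I : Finset (Fin (S.ar f)) := Finset.univ.filter fun i => s i ≠ t i
  have hI : I.Nonempty := by
    by_contra hne
    apply hst
    funext i
    by_contra hi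
    exact hne ⟨i, by simp [I, hi]⟩
  have hgt : ∀ i ∈ I, Gt (s i) (t i) := by
    intro i hi
    rcases h i with h | h
    · exact h
    · simp [I, h] at hi
  have heq : ∀ i, i ∉ I → s i = t i := by
    intro i hi
    by_contra hne
    exact hi (by simp [I, hne])
  cases hf : S.lex f with
  | true =>
    refine Gt.lex f s t hf hall (I.min' hI) ?_ (hgt _ (I.min'_mem hI))
    intro j hj
    have : j ∉ I := fun hjI => absurd (I.min'_le j hjI) (not_le.2 hj)
    rw [heq j this]
    exact Eqv.refl _
  | false =>
    refine Gt.mul f s t hf hall I I hI (Equiv.refl _) ?_ id (fun j hj => hj) hgt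
    rintro ⟨i, hi⟩
    change Eqv (s i) (t i)
    rw [heq i hi]
    exact Eqv.refl _

/-- two incomparable symbols in good position -/
structure Setup (S : Sig) where
  a : Fin S.m
  b : Fin S.m
  c : Fin S.m
  hab : a ≠ b
  nab : ¬ S.prec a b
  nba : ¬ S.prec b a
  pa : 0 < S.ar a
  pb : 0 < S.ar b
  la : S.ar a = 1 ∨ S.lex a = true
  lb : S.ar b = 1 ∨ S.lex b = true
  hc : S.ar c = 0
  cmin : ∀ d, S.ar d = 0 → ¬ S.prec c d
  low : ∀ h, 0 < S.ar h → (S.prec a h ∨ S.prec b h) → S.ar h = 1 ∧ S.prec a h ∧ S.prec b h
  base : S.prec a c ∨ ∀ d, S.ar d = 0 → ¬ S.prec a d ∧ ¬ S.prec b d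

namespace Setup

variable (U : Setup S)

/-- the two letters -/
def L (x : Bool) : Fin S.m := bif x then U.a else U.b

lemma pL (x : Bool) : 0 < S.ar (U.L x) := by
  cases x
  · exact U.pb
  · exact U.pa

lemma lL (x : Bool) : S.ar (U.L x) = 1 ∨ S.lex (U.L x) = true := by
  cases x
  · exact U.lb
  · exact U.la

lemma nL (x y : Bool) : ¬ S.prec (U.L x) (U.L y) := by
  cases x <;> cases y
  · exact S.irrefl _
  · exact U.nba
  · exact U.nab
  · exact S.irrefl _

lemma L_inj {x y : Bool} (h : U.L x = U.L y) : x = y := by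
  cases x <;> cases y
  · rfl
  · exact absurd h.symm U.hab
  · exact absurd h U.hab
  · rfl

/-- constant terms -/
def K (d : Fin S.m) (hd : S.ar d = 0) : Ground S := .app d (fun i => (Fin.cast hd i).elim0)

lemma eq_K (d : Fin S.m) (hd : S.ar d = 0) (t : Fin (S.ar d) → Ground S) : .app d t = K d hd := by
  unfold K
  congr 1
  funext i
  exact (Fin.cast hd i).elim0

/-- the least constant -/
def C : Ground S := K U.c U.hc

/-- arguments of a letter -/
def args (x : Bool) (X : Ground S) (j : Fin (S.ar (U.L x))) : Ground S :=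
  if j.val + 1 < S.ar (U.L x) then U.C else X

/-- a letter in front of a term -/
def pre (w : List Bool) (X : Ground S) : Ground S :=
  match w with
  | [] => X
  | x :: w => .app (U.L x) (U.args x (pre w X))

@[simp] lemma pre_nil (X : Ground S) : U.pre [] X = X := rfl
@[simp] lemma pre_cons (x : Bool) (w : List Bool) (X : Ground S) :
    U.pre (x :: w) X = .app (U.L x) (U.args x (U.pre w X)) := rfl

/-- the last argument -/
def last (x : Bool) : Fin (S.ar (U.L x)) := ⟨S.ar (U.L x) - 1, by have := U.pL x; omega⟩

@[simp] lemma args_last (x : Bool) (X : Ground S) : U.args x X (U.last x) = X := by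
  unfold args last
  rw [if_neg]
  have := U.pL x
  simp only
  omega

lemma args_cases (x : Bool) (X : Ground S) (j : Fin (S.ar (U.L x))) :
    j.val + 1 < S.ar (U.L x) ∧ U.args x X j = U.C ∨ j = U.last x ∧ U.args x X j = X := by
  unfold args last
  by_cases h : j.val + 1 < S.ar (U.L x)
  · left
    exact ⟨h, if_pos h⟩
  · right
    refine ⟨?_, if_neg h⟩
    apply Fin.ext
    have := j.isLt
    simp only
    omega

/-- allowed constants -/
def Kok (d : Fin S.m) : Prop := S.ar d = 0 ∧ (d = U.c ∨ S.prec U.a d ∨ S.prec U.b d)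

/-- `Gd w d X`: the term `X` is good, with skeleton `w` and leaf `d` -/
inductive Gd : List Bool → Fin S.m → Ground S → Prop
  | const (d : Fin S.m) (t : Fin (S.ar d) → Ground S) (hd : U.Kok d) : Gd [] d (.app d t)
  | low (h : Fin S.m) (t : Fin (S.ar h) → Ground S) (X : Ground S) (w : List Bool) (d : Fin S.m)
      (h1 : S.ar h = 1) (h2 : S.prec U.a h) (h3 : S.prec U.b h) (ht : ∀ i, t i = X)
      (hX : Gd w d X) : Gd w d (.app h t)
  | letter (x : Bool) (t : Fin (S.ar (U.L x)) → Ground S) (X : Ground S) (w : List Bool)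
      (d : Fin S.m) (ht : t = U.args x X) (hX : Gd w d X) : Gd (x :: w) d (.app (U.L x) t)

variable {U}

lemma Kok_c : U.Kok U.c := ⟨U.hc, Or.inl rfl⟩

lemma Gd_C : U.Gd [] U.c U.C := Gd.const _ _ Kok_c

lemma Gd_K (d : Fin S.m) (hd : U.Kok d) : U.Gd [] d (K d hd.1) := Gd.const _ _ hd

lemma Gd.pre {w : List Bool} {d : Fin S.m} {X : Ground S} (h : U.Gd w d X) (v : List Bool) :
    U.Gd (v ++ w) d (U.pre v X) := by
  induction v with
  | nil => exact h
  | cons x v ih => exact Gd.letter x _ _ _ d rfl ih

lemma Gd.kok {w : List Bool} {d : Fin S.m} {X : Ground S} (h : U.Gd w d X) : U.Kok d := by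
  induction h with
  | const d t hd => exact hd
  | low _ _ _ _ _ _ _ _ _ _ ih => exact ih
  | letter _ _ _ _ _ _ _ ih => exact ih

/-- inversion -/
lemma Gd.inv {w : List Bool} {d f : Fin S.m} {s : Fin (S.ar f) → Ground S}
    (h : U.Gd w d (.app f s)) :
    (w = [] ∧ d = f ∧ U.Kok f) ∨
    (S.ar f = 1 ∧ S.prec U.a f ∧ S.prec U.b f ∧ ∃ X, (∀ i, s i = X) ∧ U.Gd w d X) ∨
    (∃ x v X, f = U.L x ∧ w = x :: v ∧ U.Gd v d X ∧
      ∀ j : Fin (S.ar f), (j.val + 1 < S.ar f ∧ s j = U.C) ∨ (j.val + 1 = S.ar f ∧ s j = X)) := by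
  cases h with
  | const _ _ hd => exact Or.inl ⟨rfl, rfl, hd⟩
  | low _ _ X _ _ h1 h2 h3 ht hX => exact Or.inr (Or.inl ⟨h1, h2, h3, X, ht, hX⟩)
  | letter x _ X v _ ht hX =>
    refine Or.inr (Or.inr ⟨x, v, X, rfl, rfl, hX, fun j => ?_⟩)
    rw [ht]
    rcases U.args_cases x X j with h | h
    · exact Or.inl h
    · refine Or.inr ⟨?_, h.2⟩
      rw [h.1]
      unfold last
      have := U.pL x
      simp only
      omega

lemma Gd.unique {w : List Bool} {d : Fin S.m} {X : Ground S} (h : U.Gd w d X) :
    ∀ {w' : List Bool} {d' : Fin S.m}, U.Gd w' d' X → w = w' ∧ d = d' := by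
  induction h with
  | const d t hd =>
    intro w' d' h'
    rcases h'.inv with ⟨h1, h2, _⟩ | ⟨h1, _⟩ | ⟨x, _, _, h1, _⟩
    · exact ⟨h1.symm, h2.symm⟩
    · exact absurd hd.1 (by omega)
    · have := U.pL x
      rw [← h1] at this
      exact absurd hd.1 (by omega)
  | low h t X w d h1 h2 h3 ht hX ih =>
    intro w' d' h'
    rcases h'.inv with ⟨_, _, h4⟩ | ⟨_, _, _, X', h4, h5⟩ | ⟨x, _, _, h4, _⟩
    · exact absurd h4.1 (by omega)
    · have i : Fin (S.ar h) := ⟨0, by omega⟩
      have : X = X' := (ht i).symm.trans (h4 i)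
      subst this
      exact ih h5
    · exfalso
      subst h4
      exact U.nL true x h2
  | letter x t X w d ht hX ih =>
    intro w' d' h'
    rcases h'.inv with ⟨_, _, h4⟩ | ⟨_, h4, _⟩ | ⟨y, v, X', h4, h5, h6, h7⟩
    · have := U.pL x
      exact absurd h4.1 (by omega)
    · exact absurd h4 (U.nL true x)
    · have hxy := U.L_inj h4
      subst hxy
      have h8 : X = X' := by
        rcases h7 (U.last x) with ⟨h9, _⟩ | ⟨_, h9⟩
        · exfalso
          unfold last at h9
          have := U.pL x
          simp only at h9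
          omega
        · rw [← h9, ht]
          exact (U.args_last x X).symm
      subst h8
      obtain ⟨h10, h11⟩ := ih h6
      exact ⟨by rw [h5, h10], h11⟩

lemma not_gt_C (Y : Ground S) : ¬ Gt U.C Y := by
  induction Y with
  | app g t ih =>
    intro h
    unfold C K at h
    generalize hX : (Ground.app U.c fun i => (Fin.cast U.hc i).elim0 : Ground S) = X at h
    cases h with
    | sub f s t i h =>
      injection hX with h1 h2
      subst h1
      exact (Fin.cast U.hc i).elim0
    | subEqv f s t i h =>
      injection hX with h1 h2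
      subst h1
      exact (Fin.cast U.hc i).elim0
    | prec f g s t hfg h =>
      have h1 : U.c = f := by injection hX
      rw [← h1] at hfg
      by_cases hg : S.ar g = 0
      · exact U.cmin g hg hfg
      · have h2 := h ⟨0, by omega⟩
        rw [← hX] at h2
        exact ih _ h2
    | lex _ s t hf h i he hi =>
      injection hX with h1 h2
      subst h1
      exact (Fin.cast U.hc i).elim0
    | mul _ s t hf h I J hI e he g hg hJ =>
      injection hX with h1 h2
      subst h1
      obtain ⟨i, _⟩ := hI
      exact (Fin.cast U.hc i).elim0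

/-- the status does not matter on good terms -/
lemma Gd.app_facts {w : List Bool} {d : Fin S.m} {f : Fin S.m} {s : Fin (S.ar f) → Ground S}
    (h : U.Gd w d (.app f s)) :
    (S.ar f ≤ 1 ∨ S.lex f = true) ∧
      ∀ i, ∃ v e, U.Gd v e (s i) := by
  generalize hZ : Ground.app f s = Z at h
  cases h with
  | const d t hd =>
    injection hZ with h1 h2
    subst h1
    refine ⟨Or.inl (by rw [hd.1]; omega), fun i => (Fin.cast hd.1 i).elim0⟩
  | low h t X w d h1 h2 h3 ht hX =>
    injection hZ with h4 h5
    subst h4
    have h6 := eq_of_heq h5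
    subst h6
    refine ⟨Or.inl (by omega), fun i => ⟨w, d, by rw [ht]; exact hX⟩⟩
  | letter x t X w d ht hX =>
    injection hZ with h4 h5
    subst h4
    have h6 := eq_of_heq h5
    subst h6
    refine ⟨(U.lL x).imp (fun h => by omega) id, fun i => ?_⟩
    rw [ht]
    rcases U.args_cases x X i with h | h
    · rw [h.2]; exact ⟨_, _, Gd_C⟩
    · rw [h.2]; exact ⟨_, _, hX⟩

lemma eqv_left {X Y : Ground S} (h : Eqv X Y) :
    ∀ {w : List Bool} {d : Fin S.m}, U.Gd w d X → X = Y := by
  induction h with
  | app f s t p hp h ih =>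
    intro w d hX
    obtain ⟨h1, h2⟩ := hX.app_facts
    have hp1 : p = 1 := by
      rcases h1 with h1 | h1
      · have : Subsingleton (Fin (S.ar f)) := Fin.subsingleton_iff_le_one.2 h1
        exact Subsingleton.elim _ _
      · exact hp h1
    subst hp1
    congr 1
    funext i
    obtain ⟨v, e, hv⟩ := h2 i
    exact ih i hv

lemma eqv_right {X Y : Ground S} (h : Eqv X Y) :
    ∀ {w : List Bool} {d : Fin S.m}, U.Gd w d Y → X = Y := by
  induction h with
  | app f s t p hp h ih =>
    intro w d hX
    obtain ⟨h1, h2⟩ := hX.app_facts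
    have hp1 : p = 1 := by
      rcases h1 with h1 | h1
      · have : Subsingleton (Fin (S.ar f)) := Fin.subsingleton_iff_le_one.2 h1
        exact Subsingleton.elim _ _
      · exact hp h1
    subst hp1
    congr 1
    funext i
    obtain ⟨v, e, hv⟩ := h2 i
    exact ih i hv

/-- comparisons respect skeletons -/
theorem sub_of_gt {X Y : Ground S} (h : Gt X Y) :
    ∀ {w : List Bool} {d : Fin S.m} {w' : List Bool} {d' : Fin S.m},
      U.Gd w d X → U.Gd w' d' Y → List.Sublist w' w := by
  have hlex : ∀ (f : Fin S.m) (s t : Fin (S.ar f) → Ground S) (i : Fin (S.ar f)),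
      Gt (s i) (t i) →
      (∀ {w : List Bool} {d : Fin S.m} {w' : List Bool} {d' : Fin S.m},
        U.Gd w d (s i) → U.Gd w' d' (t i) → List.Sublist w' w) →
      ∀ {w : List Bool} {d : Fin S.m} {w' : List Bool} {d' : Fin S.m},
      U.Gd w d (.app f s) → U.Gd w' d' (.app f t) → List.Sublist w' w := by
    intro f s t i hi ihi w d w' d' hX hY
    rcases hX.inv with ⟨_, _, h4⟩ | ⟨h1, h2, h3, X, h4, h5⟩ | ⟨x, v, X, h1, h2, h3, h4⟩
    · exact absurd h4.1 (by have := i.isLt; omega)
    · rcases hY.inv with ⟨_, _, h6⟩ | ⟨_, _, _, Y, h7, h8⟩ | ⟨y, _, _, h6, _⟩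
      · exact absurd h6.1 (by omega)
      · exact ihi (by rw [h4]; exact h5) (by rw [h7]; exact h8)
      · exfalso
        subst h6
        exact U.nL true y h2
    · rcases hY.inv with ⟨_, _, h6⟩ | ⟨_, h6, _⟩ | ⟨y, v', Y, h6, h7, h8, h9⟩
      · exact absurd h6.1 (by have := i.isLt; omega)
      · exfalso
        subst h1
        exact U.nL true x h6
      · have hxy : x = y := U.L_inj (h1.symm.trans h6)
        subst hxy
        rcases h4 i with ⟨h10, h11⟩ | ⟨h10, h11⟩
        · rw [h11] at hi
          exact absurd hi (not_gt_C _)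
        · rcases h9 i with ⟨h12, _⟩ | ⟨_, h12⟩
          · omega
          · rw [h2, h7]
            exact (ihi (by rw [h11]; exact h3) (by rw [h12]; exact h8)).cons_cons x
  induction h with
  | sub f s t i h ih =>
    intro w d w' d' hX hY
    rcases hX.inv with ⟨_, _, h4⟩ | ⟨h1, h2, h3, X, h4, h5⟩ | ⟨x, v, X, h1, h2, h3, h4⟩
    · exact absurd h4.1 (by have := i.isLt; omega)
    · exact ih (by rw [h4]; exact h5) hY
    · rcases h4 i with ⟨h10, h11⟩ | ⟨h10, h11⟩
      · rw [h11] at h
        exact absurd h (not_gt_C _)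
      · rw [h2]
        exact (ih (by rw [h11]; exact h3) hY).cons x
  | subEqv f s t i h =>
    intro w d w' d' hX hY
    rcases hX.inv with ⟨_, _, h4⟩ | ⟨h1, h2, h3, X, h4, h5⟩ | ⟨x, v, X, h1, h2, h3, h4⟩
    · exact absurd h4.1 (by have := i.isLt; omega)
    · have h6 : s i = t := eqv_right h hY
      rw [← h6, h4] at hY
      rw [(h5.unique hY).1]
    · have h6 : s i = t := eqv_right h hY
      rcases h4 i with ⟨h10, h11⟩ | ⟨h10, h11⟩
      · rw [← h6, h11] at hY
        rw [← (Gd_C.unique hY).1]
        exact List.nil_sublist _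
      · rw [← h6, h11] at hY
        rw [← (h3.unique hY).1, h2]
        exact List.sublist_cons_self _ _
  | prec f g s t hfg h ih =>
    intro w d w' d' hX hY
    rcases hY.inv with ⟨h1, _, _⟩ | ⟨h1, h2, h3, Y, h4, h5⟩ | ⟨x, v, Y, h1, h2, h3, h4⟩
    · rw [h1]; exact List.nil_sublist _
    · have i : Fin (S.ar g) := ⟨0, by omega⟩
      exact ih i hX (by rw [h4]; exact h5)
    · exfalso
      subst h1
      rcases hX.inv with ⟨_, _, h4⟩ | ⟨_, h4, _⟩ | ⟨y, _, _, h4, _⟩
      · rcases h4.2 with h5 | h5 | h5
        · subst h5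
          have h6 := h (U.last x)
          rw [eq_K U.c U.hc s] at h6
          exact not_gt_C _ h6
        · exact U.nL true x (S.trans _ _ _ h5 hfg)
        · exact U.nL false x (S.trans _ _ _ h5 hfg)
      · exact U.nL true x (S.trans _ _ _ h4 hfg)
      · subst h4
        exact U.nL y x hfg
  | lex f s t hf h i he hi ihh ihi =>
    exact hlex f s t i hi ihi
  | mul f s t hf h I J hI e he g hg hJ ihh ihJ =>
    intro w d w' d' hX hY
    have h1 : S.ar f ≤ 1 := by
      rcases hX.app_facts.1 with h | h
      · exact h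
      · rw [hf] at h; cases h
    have hss : Subsingleton (Fin (S.ar f)) := Fin.subsingleton_iff_le_one.2 h1
    obtain ⟨i, hi⟩ := hI
    have hiJ : i ∈ J := by
      by_contra hne
      have := (e.symm ⟨i, hne⟩).2
      exact this (by rw [Subsingleton.elim (e.symm ⟨i, hne⟩).1 i]; exact hi)
    have h2 := hJ i hiJ
    have h3 := @ihJ i hiJ
    rw [Subsingleton.elim (g i) i] at h2 h3
    exact hlex f s t i h2 h3 hX hY

theorem sub_of_ge {X Y : Ground S} (h : Ge X Y)
    {w : List Bool} {d : Fin S.m} {w' : List Bool} {d' : Fin S.m}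
    (hX : U.Gd w d X) (hY : U.Gd w' d' Y) : List.Sublist w' w := by
  rcases h with h | h
  · exact sub_of_gt h hX hY
  · subst h
    rw [(hX.unique hY).1]

lemma letter_mono (x : Bool) {X Y : Ground S} (h : Gt X Y) :
    Gt (.app (U.L x) (U.args x X)) (.app (U.L x) (U.args x Y)) := by
  have hne : X ≠ Y ∨ True := Or.inr trivial
  have hall : ∀ j, Gt (.app (U.L x) (U.args x X)) (U.args x Y j) := by
    intro j
    rcases U.args_cases x Y j with h1 | h1
    · rw [h1.2]
      refine Gt.of_ge j (Or.inr ?_)
      rcases U.args_cases x X j with h2 | h2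
      · exact h2.2
      · exfalso
        have h3 := h1.1
        rw [h2.1] at h3
        unfold last at h3
        have := U.pL x
        simp only at h3
        omega
    · rw [h1.2]
      refine Gt.sub _ _ _ (U.last x) ?_
      rw [args_last]
      exact h
  cases hf : S.lex (U.L x) with
  | true =>
    refine Gt.lex _ _ _ hf hall (U.last x) ?_ (by rw [args_last, args_last]; exact h)
    intro j hj
    have hj' : j.val < (U.last x).val := hj
    rcases U.args_cases x X j with h1 | h1
    · rcases U.args_cases x Y j with h2 | h2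
      · rw [h1.2, h2.2]
        exact Eqv.refl _
      · rw [h2.1] at hj'
        exact absurd hj' (lt_irrefl _)
    · rw [h1.1] at hj'
      exact absurd hj' (lt_irrefl _)
  | false =>
    have h1 : S.ar (U.L x) = 1 := by
      rcases U.lL x with h | h
      · exact h
      · rw [hf] at h; cases h
    have hss : Subsingleton (Fin (S.ar (U.L x))) := Fin.subsingleton_iff_le_one.2 h1.le
    refine Gt.mul _ _ _ hf hall Finset.univ Finset.univ ⟨U.last x, Finset.mem_univ _⟩
      (Equiv.refl _) ?_ id (fun _ _ => Finset.mem_univ _) ?_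
    · rintro ⟨i, hi⟩
      exact absurd (Finset.mem_univ i) hi
    · intro j _
      have : j = U.last x := Subsingleton.elim _ _
      subst this
      simp only [id]
      rw [args_last, args_last]
      exact h

/-- subwords give smaller terms -/
lemma pre_ge {v w : List Bool} (h : List.Sublist v w) (X : Ground S) :
    Ge (U.pre w X) (U.pre v X) := by
  induction h with
  | slnil => exact Or.inr rfl
  | cons x h ih =>
    left
    refine Gt.of_ge (U.last x) ?_
    rw [args_last]
    exact ih
  | cons_cons x h ih =>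
    rcases ih with ih | ih
    · exact Or.inl (letter_mono x ih)
    · right
      simp only [pre_cons]
      rw [ih]

lemma Gd.ge_pre {w : List Bool} {d : Fin S.m} {X : Ground S} (h : U.Gd w d X) :
    ∀ {v : List Bool}, List.Sublist v w → Ge X (U.pre v (K d h.kok.1)) := by
  induction h with
  | const d t hd =>
    intro v hv
    rw [List.sublist_nil] at hv
    subst hv
    exact Or.inr (eq_K d hd.1 t)
  | low h t X w d h1 h2 h3 ht hX ih =>
    intro v hv
    left
    refine Gt.of_ge ⟨0, by omega⟩ ?_
    rw [ht]
    exact ih hv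
  | letter x t X w d ht hX ih =>
    intro v hv
    subst ht
    cases hv with
    | cons _ h =>
      left
      refine Gt.of_ge (U.last x) ?_
      rw [args_last]
      exact ih h
    | cons_cons _ h =>
      rcases ih h with h2 | h2
      · exact Or.inl (letter_mono x h2)
      · right
        simp only [pre_cons]
        rw [← h2]

lemma gt_C {w : List Bool} {d : Fin S.m} {X : Ground S} (h : U.Gd w d X) (hw : true ∈ w) :
    Gt X U.C := by
  rcases U.base with hb | hb
  · induction h with
    | const => simp at hw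
    | low h t X w d h1 h2 h3 ht hX ih =>
      refine Gt.of_ge ⟨0, by omega⟩ (Or.inl ?_)
      rw [ht]
      exact ih hw
    | letter x t X w d ht hX ih =>
      cases x with
      | true => exact Gt.prec _ _ _ _ hb fun j => (Fin.cast U.hc j).elim0
      | false =>
        refine Gt.of_ge (U.last false) (Or.inl ?_)
        rw [ht, args_last]
        exact ih (by simpa using hw)
  · have key : ∀ {w : List Bool} {d : Fin S.m} {X : Ground S}, U.Gd w d X → Ge X U.C := by
      intro w d X h
      induction h with
      | const d t hd =>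
        rcases hd.2 with h1 | h1 | h1
        · subst h1
          exact Or.inr (eq_K _ U.hc t)
        · exact absurd h1 (hb d hd.1).1
        · exact absurd h1 (hb d hd.1).2
      | low h t X w d h1 h2 h3 ht hX ih =>
        refine Or.inl (Gt.of_ge ⟨0, by omega⟩ ?_)
        rw [ht]
        exact ih
      | letter x t X w d ht hX ih =>
        refine Or.inl (Gt.of_ge (U.last x) ?_)
        rw [ht, args_last]
        exact ih
    rcases key h with h1 | h1
    · exact h1
    · exfalso
      subst h1
      rw [(h.unique Gd_C).1] at hw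
      simp at hw

/-- the robust converse -/
theorem gt_of_sub {w : List Bool} {d : Fin S.m} {X : Ground S} (hX : U.Gd w d X) :
    ∀ {u v w' : List Bool} {Y : Ground S}, w = u ++ true :: v → true ∉ v → U.Gd w' U.c Y →
      List.Sublist w' u → Gt X Y := by
  induction hX with
  | const =>
    intro u v w' Y hw
    simp at hw
  | low h t X w d h1 h2 h3 ht hX ih =>
    intro u v w' Y hw hv hY hs
    refine Gt.of_ge ⟨0, by omega⟩ (Or.inl ?_)
    rw [ht]
    exact ih hw hv hY hs
  | letter x t X w d ht hX ih =>
    intro u v w' Y hw hv hY hs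
    have hXX : U.Gd (x :: w) d (.app (U.L x) t) := Gd.letter x t X w d ht hX
    have hmem : true ∈ x :: w := by rw [hw]; simp
    generalize hc : U.c = e at hY
    induction hY with
    | const e t' he =>
      subst hc
      rw [eq_K U.c U.hc t']
      exact gt_C hXX hmem
    | low h t' Y w' e h1 h2 h3 ht' hY ihY =>
      refine Gt.prec _ _ _ _ ?_ fun j => ?_
      · cases x
        · exact h3
        · exact h2
      · rw [ht']
        exact ihY hs hc
    | letter y t' Y w' e ht' hY ihY =>
      subst hc
      cases u with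
      | nil => simp at hs
      | cons z u =>
        rw [List.cons_append] at hw
        obtain ⟨rfl, hw'⟩ := List.cons.inj hw
        by_cases hxy : y = x
        · subst hxy
          rw [ht, ht']
          exact letter_mono y (ih hw' hv hY (List.cons_sublist_cons.1 hs))
        · have hs' : List.Sublist (y :: w') u := by
            cases hs with
            | cons _ h => exact h
            | cons_cons _ h => exact absurd rfl hxy
          refine Gt.sub _ _ _ (U.last x) ?_
          rw [ht, args_last]
          exact ih hw' hv (Gd.letter y t' Y w' _ ht' hY) hs'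

/-- what lies below a word -/
theorem canon_down {X Y : Ground S} (h : Gt X Y) :
    ∀ {w : List Bool}, X = U.pre w U.C →
      ∃ w' d', U.Gd w' d' Y ∧ (d' = U.c ∨ ∃ l, List.Sublist (w' ++ [l]) w) := by
  have hlex : ∀ (x : Bool) (w : List Bool) (t : Fin (S.ar (U.L x)) → Ground S),
      (∀ j, j.val + 1 < S.ar (U.L x) → t j = U.C) →
      (∃ w' d', U.Gd w' d' (t (U.last x)) ∧
        (d' = U.c ∨ ∃ l, List.Sublist (w' ++ [l]) w)) →
      ∃ w' d', U.Gd w' d' (.app (U.L x) t) ∧
        (d' = U.c ∨ ∃ l, List.Sublist (w' ++ [l]) (x :: w)) := by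
    intro x w t ht ⟨w', d', h1, h2⟩
    refine ⟨x :: w', d', Gd.letter x t (t (U.last x)) w' d' ?_ h1, ?_⟩
    · funext j
      rcases U.args_cases x (t (U.last x)) j with h | h
      · rw [h.2]; exact ht j h.1
      · rw [h.2, h.1]
    · exact h2.imp id fun ⟨l, hl⟩ => ⟨l, hl.cons_cons x⟩
  induction h with
  | sub f s t i h ih =>
    intro w hX
    cases w with
    | nil =>
      obtain ⟨h1, h2⟩ := Ground.app.inj hX
      subst h1
      exact (Fin.cast U.hc i).elim0
    | cons x w =>
      obtain ⟨h1, h2⟩ := Ground.app.inj hX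
      subst h1
      have h3 := eq_of_heq h2
      subst h3
      rcases U.args_cases x (U.pre w U.C) i with h4 | h4
      · rw [h4.2] at h
        exact absurd h (not_gt_C _)
      · obtain ⟨w', d', h5, h6⟩ := ih h4.2
        exact ⟨w', d', h5, h6.imp id fun ⟨l, hl⟩ => ⟨l, hl.cons x⟩⟩
  | subEqv f s t i h =>
    intro w hX
    cases w with
    | nil =>
      obtain ⟨h1, h2⟩ := Ground.app.inj hX
      subst h1
      exact (Fin.cast U.hc i).elim0
    | cons x w =>
      obtain ⟨h1, h2⟩ := Ground.app.inj hX
      subst h1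
      have h3 := eq_of_heq h2
      subst h3
      rcases U.args_cases x (U.pre w U.C) i with h4 | h4
      · rw [h4.2] at h
        have h5 := eqv_left h (Gd_C (U := U))
        exact ⟨[], U.c, by rw [← h5]; exact Gd_C, Or.inl rfl⟩
      · rw [h4.2] at h
        have h5 := eqv_left h (Gd_C.pre w)
        exact ⟨_, U.c, by rw [← h5]; exact Gd_C.pre w, Or.inl rfl⟩
  | prec f g s t hfg h ih =>
    intro w hX
    cases w with
    | nil =>
      obtain ⟨h1, h2⟩ := Ground.app.inj hX
      subst h1
      exfalso
      by_cases hg : S.ar g = 0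
      · exact U.cmin g hg hfg
      · have h3 := h ⟨0, by omega⟩
        rw [eq_K U.c U.hc s] at h3
        exact not_gt_C _ h3
    | cons x w =>
      obtain ⟨h1, h2⟩ := Ground.app.inj hX
      subst h1
      have hab : S.prec U.a g ∨ S.prec U.b g := by
        cases x
        · exact Or.inr hfg
        · exact Or.inl hfg
      by_cases hg : S.ar g = 0
      · exact ⟨[], g, Gd.const g t ⟨hg, Or.inr hab⟩, Or.inr ⟨x, by simp⟩⟩
      · obtain ⟨h3, h4, h5⟩ := U.low g (by omega) hab
        obtain ⟨w', d', h6, h7⟩ := ih ⟨0, by omega⟩ hX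
        refine ⟨w', d', Gd.low g t _ w' d' h3 h4 h5 (fun i => ?_) h6, h7⟩
        have : Subsingleton (Fin (S.ar g)) := Fin.subsingleton_iff_le_one.2 h3.le
        rw [Subsingleton.elim i]
  | lex f s t hf h i he hi ihh ihi =>
    intro w hX
    cases w with
    | nil =>
      obtain ⟨h1, h2⟩ := Ground.app.inj hX
      subst h1
      exact (Fin.cast U.hc i).elim0
    | cons x w =>
      obtain ⟨h1, h2⟩ := Ground.app.inj hX
      subst h1
      have h3 := eq_of_heq h2
      subst h3
      rcases U.args_cases x (U.pre w U.C) i with h4 | h4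
      · rw [h4.2] at hi
        exact absurd hi (not_gt_C _)
      · have hi' := h4.1
        refine hlex x w t ?_ (by rw [← hi']; exact ihi h4.2)
        intro j hj
        have hjl : j < i := by
          rw [hi']
          unfold last
          change j.val < S.ar (U.L x) - 1
          omega
        have h5 := he j hjl
        rcases U.args_cases x (U.pre w U.C) j with h6 | h6
        · rw [h6.2] at h5
          exact (eqv_left h5 (Gd_C (U := U))).symm
        · rw [h6.1, ← hi'] at hjl
          exact absurd hjl (lt_irrefl _)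
  | mul f s t hf h I J hI e he g hg hJ ihh ihJ =>
    intro w hX
    obtain ⟨i, hi⟩ := hI
    cases w with
    | nil =>
      obtain ⟨h1, h2⟩ := Ground.app.inj hX
      subst h1
      exact (Fin.cast U.hc i).elim0
    | cons x w =>
      obtain ⟨h1, h2⟩ := Ground.app.inj hX
      subst h1
      have h3 := eq_of_heq h2
      subst h3
      have h1 : S.ar (U.L x) = 1 := by
        rcases U.lL x with h | h
        · exact h
        · rw [hf] at h; cases h
      have hss : Subsingleton (Fin (S.ar (U.L x))) := Fin.subsingleton_iff_le_one.2 h1.le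
      have hiJ : i ∈ J := by
        by_contra hne
        have := (e.symm ⟨i, hne⟩).2
        exact this (by rw [Subsingleton.elim (e.symm ⟨i, hne⟩).1 i]; exact hi)
      have h5 := @ihJ i hiJ
      rw [Subsingleton.elim (g i) (U.last x), Subsingleton.elim i (U.last x)] at h5
      exact hlex x w t (fun j hj => by omega) (h5 (U.args_last x _))

end Setup

end Pool.Agent.MP_18cdfa_lc
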