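import Pool.Agent.MP_18cdfa_lc.Gadgets

/-!
# Multiplication by comparisons of terms
-/

set_option autoImplicit false

namespace Pool.Agent.MP_18cdfa_lc

open List (replicate Sublist)

variable {S : Sig}

namespace Setup

variable (U : Setup S)

/-- body of the formula for multiplication: the value of `N` is the value of `I` times the value
of `B` -/
def MultBB (I B N B' N' X X' M M' Z W V F : Ground S) : Prop :=
  U.RB B B' ∧ U.R1 N N' ∧ U.R2 N X X' ∧ U.Add N I M ∧ U.R1 M M' ∧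
  U.Pos (A1 1 ++ tn) N ∧
  U.GoodF Z ∧ U.Pos tp Z ∧ U.GoodF W ∧ U.Pos tp W ∧ U.GoodF V ∧ U.Pos tp V ∧
  U.Cls2 false [false, true] F ∧
  Ge Z (U.pre [] B') ∧ ¬ Gt Z (U.pre [false] B) ∧ Ge Z (U.pre [] N') ∧ ¬ Gt Z (U.pre [true] N) ∧
  ¬ Gt Z (U.pre [] X) ∧ Ge Z (U.pre [] F) ∧ Ge F (U.pre [] I) ∧ Ge F (U.pre [] B) ∧
  Ge W (U.pre [false] B') ∧ ¬ Gt W (U.pre [false, false] B) ∧ ¬ Gt W (U.pre [true] N) ∧
  Ge W (U.pre [] X') ∧ Ge W (U.pre [] Z) ∧
  Ge V (U.pre [false] B') ∧ ¬ Gt V (U.pre [false, false] B) ∧ Ge V (U.pre [] X') ∧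
  ¬ Gt V (U.pre [true] X) ∧ Ge V (U.pre [] M') ∧ ¬ Gt V (U.pre [true] M) ∧
  Ge V (U.pre [] W) ∧ Ge V (U.pre [false] Z)

/-- multiplication of a positive number and a number of the second kind -/
def MultB (I B N : Ground S) : Prop :=
  ∃ B' N' X X' M M' Z W V F, U.MultBB I B N B' N' X X' M M' Z W V F

variable {U}

theorem MultB.sound {I B N : Ground S} {i m n : ℕ} (h : U.MultB I B N) (hI : U.VN (A1 i) I)
    (hB : U.VN (replicate m false) B) (hN : U.VN (A1 n) N) : n = i * m := by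
  obtain ⟨B', N', X, X', M, M', Z, W, V, F, g1, g2, g3, g4, g5, g6, gZ, gZ', gW, gW', gV, gV', gF,
    z1, z2, z3, z4, z5, z6, f1, f2, w1, w2, w3, w4, w5, v1, v2, v3, v4, v5, v6, v7, v8⟩ := h
  have hB' := RB_sound g1 hB
  have hN' := R1_sound g2 hN
  obtain ⟨hX, hX'⟩ := R2_sound g3 hN
  obtain ⟨n', i', hN2, hI2, hM⟩ := g4.sound
  have en : n' = n := by
    have := congrArg (List.count true) (hN2.unique hN)
    rwa [A1_ct, A1_ct] at this
  have ei : i' = i := by
    have := congrArg (List.count true) (hI2.unique hI)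
    rwa [A1_ct, A1_ct] at this
  subst en ei
  have hM' := R1_sound g5 hM
  have hn : 1 ≤ n' := by
    have h1 := pos_sound hN g6
    exact A1_le ((append_right_iff _ _ _).1 h1)
  obtain ⟨z, hZ⟩ := exists_host gZ gZ'
  obtain ⟨w, hW⟩ := exists_host gW gW'
  obtain ⟨v, hV⟩ := exists_host gV gV'
  obtain ⟨p, q, d, hF⟩ := cls2_sound gF
  have hF' : U.VP (replicate p true ++ replicate (q + 1) false) F := by
    refine ⟨d, ?_⟩
    have e : replicate p true ++ replicate (q + 1) false ++ tp =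
        replicate p true ++ false :: (replicate q false ++ (!false) :: [false, true]) := by
      rw [List.replicate_succ]; simp
    rw [e]
    exact hF
  have cz1 : m ≤ z.count false := (rep_sub false m z).1 (hZ.pos hB' [] z1)
  have cz2 : ¬ m + 1 ≤ z.count false := fun h =>
    hZ.neg hB [false] z2 ((rep_sub false (m + 1) z).2 h)
  have cw1 : m + 1 ≤ w.count false := (rep_sub false (m + 1) w).1 (hW.pos hB' [false] w1)
  have cw2 : ¬ m + 2 ≤ w.count false := fun h =>
    hW.neg hB [false, false] w2 ((rep_sub false (m + 2) w).2 h)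
  have cv1 : m + 1 ≤ v.count false := (rep_sub false (m + 1) v).1 (hV.pos hB' [false] v1)
  have cv2 : ¬ m + 2 ≤ v.count false := fun h =>
    hV.neg hB [false, false] v2 ((rep_sub false (m + 2) v).2 h)
  have hFi : i' ≤ p := by
    have := (hF'.geN hI f1).count_le true
    rw [A1_ct] at this
    simpa [List.count_replicate] using this
  have hFq : m ≤ q + 1 := by
    have := (hF'.geN hB f2).count_le false
    simpa [List.count_replicate] using this
  exact mult_sound (M := m) (N' := n' + i') (by omega) (hZ.pos hN' [] z3) (hZ.neg hN [true] z4)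
    (hZ.neg hX [] z5) (by omega) (hW.neg hN [true] w3) (hW.pos hX' [] w4) (hW.mono hZ w5)
    (by omega) (hV.pos hX' [] v3) (hV.neg hX [true] v4) (hV.pos hM' [] v5) (hV.neg hM [true] v6)
    (hV.mono hW v7) (hV.mono_cons hZ false v8) (hZ.mono hF'.host z6) hFi hFq hn rfl

lemma goodF_can (u : List Bool) : U.GoodF (U.wd u) := goodF_wd u

lemma pos_tp_can (u : List Bool) : U.Pos tp (U.wd (u ++ tp)) :=
  pos_wd (List.sublist_append_right _ _)

theorem MultB.can (i k : ℕ) (hi : 1 ≤ i) : U.MultB (U.wd (A1 i ++ tn))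
    (U.wd (replicate (k + 1) false ++ tn)) (U.wd (A1 (i * (k + 1)) ++ tn)) := by
  have h1 : ∀ (u x : List Bool), ¬ u.count true ≤ x.count true → ¬ Sublist u x :=
    fun u x h hs => h (hs.count_le true)
  have h2 : ∀ (u x : List Bool), ¬ u.count false ≤ x.count false → ¬ Sublist u x :=
    fun u x h hs => h (hs.count_le false)
  have e1 : i * (k + 1) + i = i * (k + 1 + 1) := by ring
  have hw : Sublist (A2 (i * (k + 1))) (UU i (k + 1) ++ [false]) := by
    rw [A2_eq]
    exact (UU_A1 i k).append (List.Sublist.refl _)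
  have hwv : Sublist (UU i (k + 1) ++ [false]) (UU i (k + 2)) :=
    (List.Sublist.refl _).append (by simp [A1])
  refine ⟨U.wd (replicate (k + 1) false ++ tp), U.wd (A1 (i * (k + 1)) ++ tp),
    U.wd (A2 (i * (k + 1)) ++ tn), U.wd (A2 (i * (k + 1)) ++ tp),
    U.wd (A1 (i * (k + 1) + i) ++ tn), U.wd (A1 (i * (k + 1) + i) ++ tp),
    U.wd (UU i (k + 1) ++ tp), U.wd ((UU i (k + 1) ++ [false]) ++ tp), U.wd (UU i (k + 2) ++ tp),
    U.wd ((replicate i true ++ replicate (k + 1) false) ++ tp),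
    RB_can _, R1_can _, R2_can _, Add.can _ _, R1_can _, ?_,
    goodF_wd _, pos_tp_can _, goodF_wd _, pos_tp_can _, goodF_wd _, pos_tp_can _, ?_,
    can_pp [] ?_, can_neg [false] ?_, can_pp [] ?_, can_neg [true] ?_,
    can_neg [] ?_, can_pp [] ?_, can_pn ?_, can_pn ?_,
    can_pp [false] ?_, can_neg [false, false] ?_, can_neg [true] ?_,
    can_pp [] ?_, can_pp [] ?_,
    can_pp [false] ?_, can_neg [false, false] ?_, can_pp [] ?_,
    can_neg [true] ?_, can_pp [] ?_, can_neg [true] ?_, can_pp [] ?_, can_pp [false] ?_⟩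
  · refine pos_wd ((append_right_iff _ _ _).2 (A1_mono ?_))
    have : 1 * 1 ≤ i * (k + 1) := Nat.mul_le_mul hi (by omega)
    omega
  · have := cls2_wd (U := U) false [false, true] i k
    have e : replicate i true ++ replicate (k + 1) false ++ tp =
        replicate i true ++ false :: (replicate k false ++ (!false) :: [false, true]) := by
      rw [List.replicate_succ]; simp
    rw [e]
    exact this
  · exact (rep_sub false _ _).2 (by rw [UU_cf])
  · apply h2
    rw [UU_cf]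
    simp
  · exact UU_A1 i k
  · exact UU_nA1 i (k + 1)
  · intro h
    rw [A2_eq] at h
    have h3 := (UU_strip i k (replicate (i * (k + 1)) true)).1 h
    have h4 := h3.count_le true
    rw [UU_ct] at h4
    simp at h4
    have : i * (k + 1) = i * k + i := by ring
    omega
  · exact UU_F i k
  · exact (List.Sublist.refl _).append (by rw [List.replicate_succ]; simp)
  · exact List.sublist_append_right _ _
  · refine (rep_sub false (k + 2) _).2 ?_
    rw [List.count_append, UU_cf]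
    simp
  · apply h2
    change ¬ (replicate (k + 3) false).count false ≤ _
    rw [List.count_append, UU_cf]
    simp
  · apply h1
    change ¬ (A1 (i * (k + 1) + 1)).count true ≤ _
    rw [A1_ct, List.count_append, UU_ct]
    simp
  · exact hw
  · exact List.sublist_append_left _ _
  · refine (rep_sub false (k + 2) _).2 ?_
    rw [UU_cf]
  · apply h2
    rw [UU_cf]
    simp
  · exact hw.trans hwv
  · intro h
    have h3 := (UU_strip i (k + 1) (replicate (i * (k + 1) + 1) true)).1 (by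
      have : (replicate (i * (k + 1) + 1) true ++ [false]) ++ [false] =
          A2 (i * (k + 1) + 1) := by rw [A2_eq]; rfl
      rw [this]
      exact h)
    exact UU_nA1 i (k + 1) h3
  · rw [e1]
    exact UU_A1 i (k + 1)
  · rw [e1]
    exact UU_nA1 i (k + 2)
  · exact hwv
  · exact UU_cons i (k + 1)

lemma ED_multB (i j k : ℕ) : ED (fun v => U.MultB (v i) (v j) (v k)) := by
  have h : ED (fun v => U.MultBB (v (i + 10)) (v (j + 10)) (v (k + 10)) (v 9) (v 8) (v 7) (v 6)
      (v 5) (v 4) (v 3) (v 2) (v 1) (v 0)) :=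
    (ED_RB _ _).and ((ED_R1 _ _).and ((ED_R2 _ _ _).and ((ED_add _ _ _).and ((ED_R1 _ _).and
    ((ED_pos _ _).and ((ED_goodF _).and ((ED_pos _ _).and ((ED_goodF _).and ((ED_pos _ _).and
    ((ED_goodF _).and ((ED_pos _ _).and ((ED_cls2 _ _ _).and
    ((ED_ge _ _ _).and ((ED_ngt _ _ _).and ((ED_ge _ _ _).and ((ED_ngt _ _ _).and
    ((ED_ngt _ _ _).and ((ED_ge _ _ _).and ((ED_ge _ _ _).and ((ED_ge _ _ _).and
    ((ED_ge _ _ _).and ((ED_ngt _ _ _).and ((ED_ngt _ _ _).and ((ED_ge _ _ _).and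
    ((ED_ge _ _ _).and ((ED_ge _ _ _).and ((ED_ngt _ _ _).and ((ED_ge _ _ _).and
    ((ED_ngt _ _ _).and ((ED_ge _ _ _).and ((ED_ngt _ _ _).and ((ED_ge _ _ _).and
    (ED_ge _ _ _)))))))))))))))))))))))))))))))))
  exact h.ex.ex.ex.ex.ex.ex.ex.ex.ex.ex

/-! ### multiplication of numbers -/

variable (U)

/-- the value is zero -/
def Zr (Y : Ground S) : Prop := U.Neg (A1 1 ++ tn) Y

/-- the value is one -/
def One (Y : Ground S) : Prop := U.Pos (A1 1 ++ tn) Y ∧ U.Neg (A1 2 ++ tn) Y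

/-- multiplication -/
def Mult (P Q R : Ground S) : Prop := U.Num P ∧ U.Num Q ∧ U.Num R ∧
  ((U.Zr P ∧ U.Zr R) ∨ (U.Zr Q ∧ U.Zr R) ∨
    ∃ O B, U.Num O ∧ U.One O ∧ U.NumB B ∧ U.MultB O B Q ∧ U.MultB P B R)

variable {U}

lemma Zr.sound {Y : Ground S} {p : ℕ} (h : U.Zr Y) (hY : U.VN (A1 p) Y) : p = 0 := by
  have h1 := neg_sound hY h
  by_contra hne
  exact h1 ((append_right_iff _ _ _).2 (A1_mono (by omega)))

lemma Zr.can : U.Zr (U.wd (A1 0 ++ tn)) := by
  refine neg_wd fun h => ?_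
  have := A1_le ((append_right_iff _ _ _).1 h)
  omega

lemma One.sound {Y : Ground S} {p : ℕ} (h : U.One Y) (hY : U.VN (A1 p) Y) : p = 1 := by
  have h1 := A1_le ((append_right_iff _ _ _).1 (pos_sound hY h.1))
  have h2 := neg_sound hY h.2
  have h3 : ¬ 2 ≤ p := fun h => h2 ((append_right_iff _ _ _).2 (A1_mono h))
  omega

lemma One.can : U.One (U.wd (A1 1 ++ tn)) := by
  refine ⟨pos_wd (List.Sublist.refl _), neg_wd fun h => ?_⟩
  have := A1_le ((append_right_iff _ _ _).1 h)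
  omega

theorem Mult.sound {P Q R : Ground S} (h : U.Mult P Q R) :
    ∃ p q, U.VN (A1 p) P ∧ U.VN (A1 q) Q ∧ U.VN (A1 (p * q)) R := by
  obtain ⟨hP, hQ, hR, h⟩ := h
  obtain ⟨p, hP⟩ := num_val hP
  obtain ⟨q, hQ⟩ := num_val hQ
  obtain ⟨r, hR⟩ := num_val hR
  have key : r = p * q := by
    rcases h with ⟨h1, h2⟩ | ⟨h1, h2⟩ | ⟨O, B, h1, h2, h3, h4, h5⟩
    · rw [h1.sound hP, h2.sound hR, zero_mul]
    · rw [h1.sound hQ, h2.sound hR, mul_zero]
    · obtain ⟨o, hO⟩ := num_val h1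
      obtain ⟨m, hB⟩ := numB_val h3
      have ho := h2.sound hO
      subst ho
      have e1 := h4.sound hO hB hQ
      have e2 := h5.sound hP hB hR
      rw [e2, e1, one_mul]
  subst key
  exact ⟨p, q, hP, hQ, hR⟩

theorem Mult.can (p q : ℕ) : U.Mult (U.wd (A1 p ++ tn)) (U.wd (A1 q ++ tn))
    (U.wd (A1 (p * q) ++ tn)) := by
  refine ⟨num_can _, num_can _, num_can _, ?_⟩
  rcases Nat.eq_zero_or_pos p with hp | hp
  · subst hp
    rw [zero_mul]
    exact Or.inl ⟨Zr.can, Zr.can⟩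
  rcases Nat.eq_zero_or_pos q with hq | hq
  · subst hq
    rw [mul_zero]
    exact Or.inr (Or.inl ⟨Zr.can, Zr.can⟩)
  obtain ⟨k, rfl⟩ : ∃ k, q = k + 1 := ⟨q - 1, by omega⟩
  refine Or.inr (Or.inr ⟨U.wd (A1 1 ++ tn), U.wd (replicate (k + 1) false ++ tn), num_can _,
    One.can, numB_can _, ?_, MultB.can p k hp⟩)
  have := MultB.can (U := U) 1 k le_rfl
  rwa [one_mul] at this

lemma ED_mult (i j k : ℕ) : ED (fun v => U.Mult (v i) (v j) (v k)) := by
  have h : ED (fun v => U.Num (v 1) ∧ U.One (v 1) ∧ U.NumB (v 0) ∧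
      U.MultB (v 1) (v 0) (v (j + 2)) ∧ U.MultB (v (i + 2)) (v 0) (v (k + 2))) :=
    (ED_num _).and (((ED_pos _ _).and (ED_neg _ _)).and ((ED_numB _).and
      ((ED_multB _ _ _).and (ED_multB _ _ _))))
  exact (ED_num _).and ((ED_num _).and ((ED_num _).and (((ED_neg _ _).and (ED_neg _ _)).or
    (((ED_neg _ _).and (ED_neg _ _)).or h.ex.ex))))

end Setup

end Pool.Agent.MP_18cdfa_lc
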