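import Pool.Agent.MP_18cdfa_lc.Times
import Pool.Agent.MP_18cdfa_lc.Choice
import Pool.Agent.Lib.helper64.MRDP.Main

/-!
# Undecidability
-/

set_option autoImplicit false

namespace Pool.Agent.MP_18cdfa_lc

open List (replicate)
open Pool.Agent.H64 (At Sat)

variable {S : Sig}

namespace Setup

variable (U : Setup S)

/-- the variable of the formula that belongs to a variable of the system -/
def ix : ℕ ⊕ ℕ → ℕ := Sum.elim (fun _ => 0) (fun j => j + 1)

/-- the equations as relations between terms -/
def Gad (v : ℕ → Ground S) : At (ℕ ⊕ ℕ) → Prop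
  | .one i => U.Num (v (ix i)) ∧ U.One (v (ix i))
  | .add i j k => U.Add (v (ix i)) (v (ix j)) (v (ix k))
  | .mul i j k => U.Mult (v (ix i)) (v (ix j)) (v (ix k))

variable {U}

lemma ED_gad (A : At (ℕ ⊕ ℕ)) : ED (fun v => U.Gad v A) := by
  cases A with
  | one i => exact (ED_num _).and ((ED_pos _ _).and (ED_neg _ _))
  | add i j k => exact ED_add _ _ _
  | mul i j k => exact ED_mult _ _ _

open Classical in
/-- the value of a term -/
noncomputable def val (U : Setup S) (Y : Ground S) : ℕ :=
  if h : ∃ p, U.VN (A1 p) Y then h.choose else 0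

lemma A1_inj {p q : ℕ} (h : A1 p = A1 q) : p = q := by
  have := congrArg (List.count true) h
  rwa [A1_ct, A1_ct] at this

lemma val_eq {Y : Ground S} {p : ℕ} (h : U.VN (A1 p) Y) : U.val Y = p := by
  have h1 : ∃ p, U.VN (A1 p) Y := ⟨p, h⟩
  unfold val
  rw [dif_pos h1]
  exact A1_inj (h1.choose_spec.unique h)

/-- the canonical term for a number -/
abbrev nu (U : Setup S) (n : ℕ) : Ground S := U.wd (A1 n ++ tn)

theorem gad_iff (L : List (At (ℕ ⊕ ℕ))) (n : ℕ) :
    (∃ v : ℕ → Ground S, v 0 = U.nu n ∧ ∀ A ∈ L, U.Gad v A) ↔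
      ∃ t : ℕ → ℕ, Sat L (Sum.elim (fun _ => n) t) := by
  constructor
  · rintro ⟨v, h0, hv⟩
    refine ⟨fun j => U.val (v (j + 1)), fun A hA => ?_⟩
    have key : ∀ (i : ℕ ⊕ ℕ) (p : ℕ), U.VN (A1 p) (v (ix i)) →
        Sum.elim (fun _ => n) (fun j => U.val (v (j + 1))) i = p := by
      intro i p hp
      rcases i with i | i
      · have h1 : U.VN (A1 p) (v 0) := hp
        rw [h0] at h1
        exact A1_inj ((VN_can (A1 n)).unique h1)
      · exact val_eq hp
    have hg := hv A hA
    cases A with
    | one i =>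
      obtain ⟨p, hp⟩ := num_val hg.1
      have := hg.2.sound hp
      subst this
      exact key i _ hp
    | add i j k =>
      obtain ⟨p, q, hp, hq, hr⟩ := hg.sound
      change Sum.elim _ _ i + Sum.elim _ _ j = Sum.elim _ _ k
      rw [key i _ hp, key j _ hq, key k _ hr]
    | mul i j k =>
      obtain ⟨p, q, hp, hq, hr⟩ := hg.sound
      change Sum.elim _ _ i * Sum.elim _ _ j = Sum.elim _ _ k
      rw [key i _ hp, key j _ hq, key k _ hr]
  · rintro ⟨t, ht⟩
    let v : ℕ → Ground S := fun j => Nat.casesOn j (U.nu n) (fun j => U.nu (t j))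
    have key : ∀ i : ℕ ⊕ ℕ, v (ix i) = U.nu (Sum.elim (fun _ => n) t i) := by
      intro i
      rcases i with i | i <;> rfl
    refine ⟨v, rfl, fun A hA => ?_⟩
    have hs := ht A hA
    cases A with
    | one i =>
      have h1 : Sum.elim (fun _ => n) t i = 1 := hs
      refine ⟨?_, ?_⟩
      · rw [key]
        exact num_can _
      · rw [key, h1]
        exact One.can
    | add i j k =>
      have h1 : Sum.elim (fun _ => n) t i + Sum.elim (fun _ => n) t j =
        Sum.elim (fun _ => n) t k := hs
      change U.Add _ _ _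
      rw [key, key, key, ← h1]
      exact Add.can _ _
    | mul i j k =>
      have h1 : Sum.elim (fun _ => n) t i * Sum.elim (fun _ => n) t j =
        Sum.elim (fun _ => n) t k := hs
      change U.Mult _ _ _
      rw [key, key, key, ← h1]
      exact Mult.can _ _

/-- the term for a number -/
def nuT (U : Setup S) (n : ℕ) : Tm S ℕ :=
  U.preT (replicate n true ++ [false, true, false]) U.C.tm

lemma eval_nuT (n : ℕ) (v : ℕ → Ground S) : (U.nuT n).eval v = U.nu n := by
  unfold nuT nu wd
  rw [eval_preT, Ground.eval_tm]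
  congr 1
  unfold A1
  rw [List.append_assoc]
  rfl

lemma flatten_args (n : ℕ) (hn : 0 < n) (c x : List ℕ) :
    (List.ofFn (fun i : Fin n => if i.val + 1 < n then c else x)).flatten =
      (replicate (n - 1) c).flatten ++ x := by
  obtain ⟨k, rfl⟩ : ∃ k, n = k + 1 := ⟨n - 1, by omega⟩
  rw [List.ofFn_succ', List.concat_eq_append, List.flatten_append]
  have h1 : (List.ofFn fun i : Fin k => if (Fin.castSucc i).val + 1 < k + 1 then c else x) =
      replicate k c := by
    rw [← List.ofFn_const]
    congr 1
    funext i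
    have := i.isLt
    rw [if_pos (by simp)]
  rw [h1]
  simp

/-- block of a letter in the string of a term -/
def blk (U : Setup S) (x : Bool) : List ℕ :=
  ((U.L x).val + 1) :: (replicate (S.ar (U.L x) - 1) (U.C.tm : Tm S ℕ).code).flatten

lemma code_preT (x : Bool) (w : List Bool) (X : Tm S ℕ) :
    (U.preT (x :: w) X).code = U.blk x ++ (U.preT w X).code := by
  have h : (U.preT (x :: w) X).code = ((U.L x).val + 1) ::
      (List.ofFn (fun i : Fin (S.ar (U.L x)) =>
        if i.val + 1 < S.ar (U.L x) then (U.C.tm : Tm S ℕ).code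
        else (U.preT w X).code)).flatten := by
    simp only [preT, Tm.code]
    congr 2
    congr 1
    funext i
    split <;> rfl
  rw [h, flatten_args _ (U.pL x)]
  rfl

lemma primrec_nuT : Primrec fun n => (U.nuT n).code := by
  have h : (fun n => (U.nuT n).code) = fun n => Nat.rec (motive := fun _ => List ℕ)
      (U.nuT 0).code (fun _ l => U.blk true ++ l) n := by
    funext n
    induction n with
    | zero => rfl
    | succ n ih =>
      have e : U.nuT (n + 1) =
          U.preT (true :: (replicate n true ++ [false, true, false])) U.C.tm := by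
        unfold nuT
        rw [List.replicate_succ]
        rfl
      rw [e, code_preT]
      change U.blk true ++ (U.nuT n).code = _
      rw [ih]
  rw [h]
  have h2 : Primrec₂ (fun (_ : ℕ) (l : List ℕ) => U.blk true ++ l) :=
    Primrec.list_append.comp (Primrec.const (U.blk true)) Primrec.snd
  exact Primrec.nat_rec₁ _ h2

theorem undecidable (U : Setup S) : ¬ ExistentialDecidable S := by
  rintro ⟨dec, hdec, hspec⟩
  obtain ⟨L, hL⟩ := Pool.Agent.H64.exists_system
  apply hL
  obtain ⟨φ, hφ⟩ := ED.forall_mem L (fun A v => U.Gad v A) (fun A _ => ED_gad A)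
  let e : ℕ ⊕ ℕ ≃ ℕ := Equiv.natSumNatEquivNat
  let ψ : ℕ → Fml S ℕ := fun n => .and (.eq (.var (e (Sum.inl 0))) (U.nuT n)) (φ.map e)
  have hψ : ∀ n, (∃ v : ℕ → Ground S, (ψ n).Holds v) ↔
      ∃ t : ℕ → ℕ, Sat L (Sum.elim (fun _ => n) t) := by
    intro n
    rw [← gad_iff (U := U) L n]
    constructor
    · rintro ⟨x, hx⟩
      obtain ⟨h1, h2⟩ : (x (e (Sum.inl 0)) = (U.nuT n).eval x) ∧ (φ.map e).Holds x := hx
      rw [eval_nuT] at h1
      rw [Fml.holds_map] at h2
      refine ⟨x ∘ e ∘ Sum.inl, h1, (hφ _).2 ⟨x ∘ e ∘ Sum.inr, ?_⟩⟩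
      have : Sum.elim (x ∘ e ∘ Sum.inl) (x ∘ e ∘ Sum.inr) = x ∘ e := by
        funext i
        rcases i with i | i <;> rfl
      rw [this]
      exact h2
    · rintro ⟨v, h0, hv⟩
      obtain ⟨t, ht⟩ := (hφ v).1 hv
      refine ⟨Sum.elim v t ∘ e.symm, ?_, ?_⟩
      · change Sum.elim v t (e.symm (e (Sum.inl 0))) = (U.nuT n).eval _
        rw [e.symm_apply_apply, eval_nuT]
        exact h0
      · rw [Fml.holds_map]
        have : (Sum.elim v t ∘ e.symm) ∘ e = Sum.elim v t := by
          funext i
          simp
        rw [this]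
        exact ht
  have hcode : Primrec fun n => (ψ n).code := by
    have h1 : (fun n => (ψ n).code) = fun n =>
        3 :: ((0 :: ([0, e (Sum.inl 0)] ++ (U.nuT n).code)) ++ (φ.map e).code) := rfl
    rw [h1]
    exact Primrec.list_cons.comp (Primrec.const 3) (Primrec.list_append.comp
      (Primrec.list_cons.comp (Primrec.const 0)
        (Primrec.list_append.comp (Primrec.const _) primrec_nuT)) (Primrec.const _))
  refine ComputablePred.computable_iff.2 ⟨fun n => dec (ψ n).code, hdec.comp hcode.to_comp, ?_⟩
  funext n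
  apply propext
  rw [← hψ n]
  exact (hspec (ψ n)).symm

end Setup

/-- If there are two incomparable symbols `f` and `g`, neither a constant, each of them unary or
with lexicographic status, such that all symbols below `f` or `g` have arity at most one, then the
existential theory is undecidable. -/
theorem undecidable_of_pair {f g : Fin S.m} (H : Pair S f g) : ¬ ExistentialDecidable S := by
  obtain ⟨U⟩ := exists_setup H
  exact U.undecidable

end Pool.Agent.MP_18cdfa_lc
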